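import Pool.Agent.HBD.Ev

set_option autoImplicit false
set_option linter.unusedSectionVars false

namespace Pool.Agent.HBD

open NumberField MvPolynomial

variable {K : Type} [Field K] [NumberField K] {n : ℕ}

/-- Multiplicative independence. -/
def MI (α : Fin n → K) : Prop :=
  (∀ i, α i ≠ 0) ∧ ∀ e : Fin n → ℤ, ∏ i, α i ^ e i = 1 → e = 0

lemma frob (F : MvPolynomial (Fin n) ℤ) (q : ℕ) (hq : q.Prime) :
    ∃ G : MvPolynomial (Fin n) ℤ, expand q F = F ^ q + C (q : ℤ) * G ∧
      G.totalDegree ≤ q * F.totalDegree := by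
  have : Fact q.Prime := ⟨hq⟩
  have h1 : map (Int.castRingHom (ZMod q)) (expand q F - F ^ q) = 0 := by
    rw [map_sub, map_expand, map_pow, expand_zmod, sub_self]
  obtain ⟨G, hG⟩ := (C_dvd_iff_zmod q _).mpr h1
  refine ⟨G, by rw [← hG]; ring, ?_⟩
  have h2 : (C (q : ℤ) * G).totalDegree ≤ q * F.totalDegree := by
    rw [← hG]
    refine (totalDegree_sub _ _).trans (max_le ?_ (totalDegree_pow _ _))
    rw [totalDegree_expand, mul_comm]
  by_cases hG0 : G = 0
  · rw [hG0]; simp
  · have hq0 : (C (q : ℤ) : MvPolynomial (Fin n) ℤ) ≠ 0 := by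
      rw [Ne, C_eq_zero]
      exact_mod_cast hq.ne_zero
    rw [totalDegree_mul_of_isDomain hq0 hG0] at h2
    omega

lemma step (β : Fin n → K) (hβ : ∀ i, β i ≠ 0) (F : MvPolynomial (Fin n) ℤ) (hF : F ≠ 0)
    (N : ℕ) (hN : F.totalDegree ≤ N) (h0 : aeval β F = 0) (q : ℕ) (hq : q.Prime)
    (h1 : aeval (fun i => β i ^ q) F ≠ 0) :
    Real.log q ≤ Real.log (len F) + (q * N : ℕ) * wht K β := by
  obtain ⟨G, hG, hGd⟩ := frob F q hq
  have h2 : aeval (fun i => β i ^ q) F = (q : K) * aeval β G := by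
    have h3 := aeval_expand (p := q) β F
    have h4 : (β ^ q : Fin n → K) = fun i => β i ^ q := rfl
    have h5 : aeval β (expand q F) = (q : K) * aeval β G := by
      rw [hG, map_add, map_pow, h0, zero_pow hq.ne_zero, zero_add, map_mul, aeval_C]
      simp
    rw [← h5, h3]
    rfl
  have h6 := key β hβ h1 (q * N) 1 q hq.ne_zero (len F) (one_le_len F hF)
    (fun w => by
      have := evI (fun i => β i ^ q) F N hN w
      rw [szI_pow, ← pow_mul] at this
      exact this)
    (fun v => by
      rw [h2, map_mul, pow_one]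
      exact mul_le_mul_of_nonneg_left
        (evF β G (q * N) (hGd.trans (Nat.mul_le_mul_left q hN)) v) (apply_nonneg v _))
  simpa using h6

lemma chain (α : Fin n → K) (hα : ∀ i, α i ≠ 0) (F : MvPolynomial (Fin n) ℤ) (hF : F ≠ 0)
    (N : ℕ) (hN : F.totalDegree ≤ N) (h0 : aeval α F = 0) (L T : ℕ) (hL : len F ≤ L)
    (hT : (T : ℝ) * (N * wht K α) < Real.log 2) :
    ∀ m : ℕ, 1 ≤ m → m ≤ T → (∀ q : ℕ, q.Prime → q ∣ m → 2 * L < q) →
      aeval (fun i => α i ^ m) F = 0 := by
  intro m
  induction m using Nat.strong_induction_on with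
  | _ m ih =>
    intro hm1 hmT hmq
    by_cases hm : m = 1
    · subst hm
      simpa using h0
    · obtain ⟨q, hq, m', rfl⟩ := Nat.exists_prime_and_dvd hm
      have hm'0 : m' ≠ 0 := by
        rintro rfl
        simp at hm1
      have hlt : m' < q * m' := by
        have := hq.two_le
        nlinarith [Nat.pos_of_ne_zero hm'0]
      have h1 := ih m' hlt (Nat.pos_of_ne_zero hm'0) (by omega)
        (fun r hr hrm => hmq r hr (Dvd.dvd.mul_left hrm q))
      have hqL : 2 * L < q := hmq q hq (dvd_mul_right q m')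
      by_contra hne
      have heq : (fun i => α i ^ (q * m')) = (fun i => (fun i => α i ^ m') i ^ q) := by
        funext i
        show α i ^ (q * m') = (α i ^ m') ^ q
        rw [← pow_mul, mul_comm]
      rw [heq] at hne
      have h2 := step (fun i => α i ^ m') (fun i => pow_ne_zero _ (hα i)) F hF N hN h1 q hq hne
      rw [wht_pow] at h2
      have hlen1 := one_le_len F hF
      have hL1 : (1 : ℝ) ≤ L := hlen1.trans hL
      have hq0 : (0 : ℝ) < q := by exact_mod_cast hq.pos
      have h3 : Real.log 2 + Real.log (len F) ≤ Real.log q := by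
        rw [← Real.log_mul (by norm_num) (by linarith)]
        apply Real.log_le_log (by linarith)
        have : ((2 * L : ℕ) : ℝ) ≤ q := by exact_mod_cast hqL.le
        push_cast at this
        linarith
      have h4 : ((q * N : ℕ) : ℝ) * ((m' : ℝ) * wht K α) ≤ (T : ℝ) * (N * wht K α) := by
        have h5 : ((q * m' : ℕ) : ℝ) ≤ T := by exact_mod_cast hmT
        have h6 : 0 ≤ (N : ℝ) * wht K α := mul_nonneg (by positivity) (wht_nonneg α)
        have h7 := mul_le_mul_of_nonneg_right h5 h6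
        push_cast at h7 ⊢
        linarith
      linarith

lemma MI.zpow_inj {α : Fin n → K} (h : MI α) (a b : Fin n →₀ ℕ) (m : ℕ) (hm : m ≠ 0)
    (hab : (∏ i, α i ^ a i) ^ m = (∏ i, α i ^ b i) ^ m) : a = b := by
  have hne : ∀ c : Fin n →₀ ℕ, (∏ i, α i ^ c i) ≠ 0 := fun c =>
    Finset.prod_ne_zero_iff.mpr fun i _ => pow_ne_zero _ (h.1 i)
  have h1 : ∏ i, α i ^ ((m : ℤ) * ((a i : ℤ) - b i)) = 1 := by
    have h2 : ∀ i, α i ^ ((m : ℤ) * ((a i : ℤ) - b i)) = (α i ^ a i) ^ m / (α i ^ b i) ^ m := by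
      intro i
      rw [mul_sub, zpow_sub₀ (h.1 i), ← pow_mul, ← pow_mul]
      congr 1
      · rw [← zpow_natCast]; congr 1; push_cast; ring
      · rw [← zpow_natCast]; congr 1; push_cast; ring
    simp_rw [h2]
    rw [Finset.prod_div_distrib, Finset.prod_pow, Finset.prod_pow, hab,
      div_self (pow_ne_zero _ (hne b))]
  have h3 := h.2 _ h1
  ext i
  have h4 := congrFun h3 i
  simp only [Pi.zero_apply, mul_eq_zero, Nat.cast_eq_zero, hm, false_or] at h4
  omega

/-- Bounded length theorem. -/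
theorem bounded_length (L : ℕ) : ∃ c : ℝ, 0 < c ∧ ∀ (n : ℕ) (K : Type) [Field K] [NumberField K]
    (α : Fin n → K), MI α → ∀ (F : MvPolynomial (Fin n) ℤ), F ≠ 0 → aeval α F = 0 →
    ∀ N : ℕ, F.totalDegree ≤ N → len F ≤ L → c ≤ N * wht K α := by
  set P : ℕ := (2 * L).factorial with hP
  set T : ℕ := 1 + L * P with hT
  have hTpos : (0 : ℝ) < T := by
    have : 0 < T := by omega
    exact_mod_cast this
  refine ⟨Real.log 2 / T, div_pos (Real.log_pos (by norm_num)) hTpos, ?_⟩
  intro n K _ _ α hα F hF h0 N hN hL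
  by_contra hc
  rw [not_le, lt_div_iff₀ hTpos] at hc
  have hT' : (T : ℝ) * (N * wht K α) < Real.log 2 := by linarith
  have hch := chain α hα.1 F hF N hN h0 L T hL hT'
  -- number of terms at most L
  have hcard : F.support.card ≤ L := by
    have h1 : (F.support.card : ℝ) ≤ len F := by
      unfold len
      rw [← nsmul_one (F.support.card), ← Finset.sum_const]
      refine Finset.sum_le_sum fun a ha => ?_
      have : F.coeff a ≠ 0 := mem_support_iff.mp ha
      have h2 : 1 ≤ |F.coeff a| := Int.one_le_abs this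
      exact_mod_cast h2
    exact_mod_cast h1.trans hL
  set k := F.support.card with hk
  let eqv := F.support.equivFin
  have hkpos : 0 < k := Finset.card_pos.mpr (support_nonempty.mpr hF)
  have hvan := Matrix.eq_zero_of_forall_pow_sum_mul_pow_eq_zero (R := K)
    (f := fun j : Fin k => (∏ i, α i ^ ((eqv.symm j : Fin n →₀ ℕ) i)) ^ P)
    (v := fun j : Fin k => ((F.coeff (eqv.symm j : Fin n →₀ ℕ) : ℤ) : K) *
      ∏ i, α i ^ ((eqv.symm j : Fin n →₀ ℕ) i)) ?_ ?_
  · have h1 := congrFun hvan ⟨0, hkpos⟩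
    simp only [Pi.zero_apply, mul_eq_zero] at h1
    rcases h1 with h1 | h1
    · have h2 : F.coeff (eqv.symm ⟨0, hkpos⟩ : Fin n →₀ ℕ) ≠ 0 :=
        mem_support_iff.mp (eqv.symm ⟨0, hkpos⟩).2
      apply h2
      exact_mod_cast h1
    · exact (Finset.prod_ne_zero_iff.mpr fun i _ => pow_ne_zero _ (hα.1 i)) h1
  · intro j j' hjj
    have h1 := hα.zpow_inj _ _ P (Nat.factorial_ne_zero _) hjj
    have h2 : eqv.symm j = eqv.symm j' := Subtype.ext h1
    exact eqv.symm.injective h2
  · intro t
    have ht : (t : ℕ) ≤ L := le_trans t.2.le hcard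
    have h1 := hch (1 + t * P) (by omega) (by
      rw [hT]
      have := Nat.mul_le_mul_right P ht
      omega) (by
      intro q hq hqd
      by_contra hle
      rw [not_lt] at hle
      have h2 : q ∣ P := (hq.dvd_factorial).mpr hle
      have h3 : q ∣ 1 := by
        have h4 : q ∣ t * P := Dvd.dvd.mul_left h2 _
        exact (Nat.dvd_add_left h4).mp hqd
      exact hq.one_lt.ne' (Nat.dvd_one.mp h3))
    rw [aeval_eq] at h1
    have h5 : ∀ g : (Fin n →₀ ℕ) → K, (∑ j : Fin k, g (eqv.symm j : Fin n →₀ ℕ)) =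
        ∑ a ∈ F.support, g a := by
      intro g
      have h6 := Equiv.sum_comp eqv.symm (fun x : F.support => g x)
      exact h6.trans (Finset.sum_coe_sort F.support g)
    rw [← h1, ← h5]
    refine Finset.sum_congr rfl fun j _ => ?_
    rw [mul_assoc]
    congr 1
    rw [← pow_mul, ← pow_succ', ← Finset.prod_pow]
    refine Finset.prod_congr rfl fun i _ => ?_
    rw [← pow_mul, ← pow_mul]
    congr 1
    ring

end Pool.Agent.HBD
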