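import Mathlib

set_option autoImplicit false

namespace Pool.Agent.HBD

lemma exists_m (k : ℕ) : ∃ m : ℕ, 1 ≤ m ∧ (1 + k * m) * (m * (k + 1) + 1) + 1 ≤ 2 ^ m := by
  have h := tendsto_pow_const_div_const_pow_of_one_lt 2 (r := (2 : ℝ)) (by norm_num)
  have h1 : (0 : ℝ) < 1 / ((k + 3 : ℕ) : ℝ) ^ 2 := by positivity
  have h2 := h.eventually (gt_mem_nhds h1)
  obtain ⟨m, hm, hm1⟩ := (h2.and (Filter.eventually_ge_atTop 1)).exists
  refine ⟨m, hm1, ?_⟩
  have h3 : ((k + 3 : ℕ) : ℝ) ^ 2 * (m : ℝ) ^ 2 < 2 ^ m := by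
    rw [div_lt_div_iff₀ (by positivity) (by positivity)] at hm
    linarith
  have h4 : (k + 3) ^ 2 * m ^ 2 < 2 ^ m := by exact_mod_cast h3
  have h5 : (1 + k * m) ≤ (k + 3) * m := by nlinarith
  have h6 : (m * (k + 1) + 1) ≤ (k + 3) * m := by nlinarith
  have h7 := Nat.mul_le_mul h5 h6
  have h8 : (k + 3) * m * ((k + 3) * m) = (k + 3) ^ 2 * m ^ 2 := by ring
  omega

lemma growth (k : ℕ) : ∃ D : ℕ, ∀ f : ℕ → ℕ, 1 ≤ f 0 → Monotone f →
    (∀ d, f d ≤ (d + 1) ^ k) →
    ∃ d g : ℕ, 1 ≤ d ∧ d ≤ D ∧ g < d ∧ 2 * f d ≤ 2 ^ g ∧ g * f d < ∑ i ∈ Finset.range d, f i := by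
  obtain ⟨m, hm1, hm⟩ := exists_m k
  refine ⟨2 ^ m - 1, ?_⟩
  intro f hf0 hmono hf
  set g := 1 + k * m with hg
  set D := 2 ^ m - 1 with hD
  have hD1 : D + 1 = 2 ^ m := by
    have : 0 < 2 ^ m := by positivity
    omega
  by_contra hcon
  push Not at hcon
  have hfd : ∀ d, 1 ≤ f d := fun d => hf0.trans (hmono (Nat.zero_le d))
  have hall : ∀ d, 1 ≤ d → d ≤ D → ∑ i ∈ Finset.range d, f i ≤ g * f d := by
    intro d hd1 hdD
    by_contra hlt
    rw [not_le] at hlt
    have hgd : g < d := by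
      have h1 : ∑ i ∈ Finset.range d, f i ≤ d * f d := by
        calc ∑ i ∈ Finset.range d, f i ≤ ∑ _i ∈ Finset.range d, f d :=
              Finset.sum_le_sum fun i hi => hmono (Finset.mem_range.mp hi).le
          _ = d * f d := by simp
      have h2 : g * f d < d * f d := lt_of_lt_of_le hlt h1
      exact lt_of_mul_lt_mul_right h2 (Nat.zero_le _)
    have h3 := hcon d g hd1 hdD hgd ?_
    · omega
    · have h4 : f d ≤ (2 ^ m) ^ k := (hf d).trans (Nat.pow_le_pow_left (by omega) k)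
      rw [hg, pow_add, pow_one, mul_comm k m, pow_mul]
      omega
  have hgpos : (0 : ℝ) < g := by
    have : 0 < g := by omega
    exact_mod_cast this
  set r : ℝ := 1 + 1 / g with hr
  have hr1 : 1 ≤ r := by
    rw [hr]
    have : 0 ≤ 1 / (g : ℝ) := by positivity
    linarith
  have hgrow : ∀ d, d ≤ D → r ^ d ≤ ((∑ i ∈ Finset.range (d + 1), f i : ℕ) : ℝ) := by
    intro d
    induction d with
    | zero =>
      intro _
      simp only [pow_zero, zero_add, Finset.sum_range_one]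
      exact_mod_cast hf0
    | succ d ih =>
      intro hd
      have h1 := ih (by omega)
      have h2 := hall (d + 1) (by omega) hd
      have h2' : ((∑ i ∈ Finset.range (d + 1), f i : ℕ) : ℝ) ≤ g * f (d + 1) := by
        exact_mod_cast h2
      have h3 : ((∑ i ∈ Finset.range (d + 1), f i : ℕ) : ℝ) / g ≤ f (d + 1) := by
        rw [div_le_iff₀ hgpos]; linarith
      rw [pow_succ, Finset.sum_range_succ _ (d + 1)]
      push_cast
      push_cast at h1 h3
      calc r ^ d * r ≤ (∑ i ∈ Finset.range (d + 1), (f i : ℝ)) * r :=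
            mul_le_mul_of_nonneg_right h1 (by linarith)
        _ = (∑ i ∈ Finset.range (d + 1), (f i : ℝ)) +
            (∑ i ∈ Finset.range (d + 1), (f i : ℝ)) / g := by rw [hr]; ring
        _ ≤ _ := by linarith
  have h5 := hgrow D le_rfl
  have h6 : ((∑ i ∈ Finset.range (D + 1), f i : ℕ) : ℝ) ≤ 2 ^ (m * (k + 1)) := by
    have h7 : ∑ i ∈ Finset.range (D + 1), f i ≤ 2 ^ (m * (k + 1)) := by
      calc ∑ i ∈ Finset.range (D + 1), f i ≤ ∑ _i ∈ Finset.range (D + 1), (2 ^ m) ^ k := by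
            refine Finset.sum_le_sum fun i hi => (hf i).trans (Nat.pow_le_pow_left ?_ k)
            have := Finset.mem_range.mp hi
            omega
        _ = (D + 1) * (2 ^ m) ^ k := by simp
        _ = 2 ^ (m * (k + 1)) := by rw [hD1, ← pow_mul, ← pow_add]; congr 1; ring
    exact_mod_cast h7
  have h8 : (2 : ℝ) ≤ r ^ g := by
    have := one_add_mul_le_pow (a := 1 / (g : ℝ)) (by
      have : 0 ≤ 1 / (g : ℝ) := by positivity
      linarith) g
    rw [mul_one_div_cancel hgpos.ne'] at this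
    linarith
  have h9 : (2 : ℝ) ^ (m * (k + 1) + 1) ≤ r ^ D := by
    calc (2 : ℝ) ^ (m * (k + 1) + 1) ≤ (r ^ g) ^ (m * (k + 1) + 1) :=
          pow_le_pow_left₀ (by norm_num) h8 _
      _ = r ^ (g * (m * (k + 1) + 1)) := by rw [← pow_mul]
      _ ≤ r ^ D := pow_le_pow_right₀ hr1 (by omega)
  have h10 : (2 : ℝ) ^ (m * (k + 1) + 1) ≤ 2 ^ (m * (k + 1)) := h9.trans (h5.trans h6)
  have h11 : (0 : ℝ) < 2 ^ (m * (k + 1)) := by positivity
  rw [pow_succ] at h10
  linarith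

end Pool.Agent.HBD
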