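import Pool.Agent.HBD.Sm

set_option autoImplicit false

namespace Pool.Agent.HBD

open MvPolynomial

variable {n : ℕ}

lemma inj_step (p : ℕ) (hp : p.Prime) (S : MvPolynomial (Fin n) ℤ)
    (hS : map (Int.castRingHom (ZMod p)) S ≠ 0) (s : ℕ)
    (R R' T T' : MvPolynomial (Fin n) ℤ)
    (hR : ∀ b, 0 ≤ coeff b R ∧ coeff b R < p) (hR' : ∀ b, 0 ≤ coeff b R' ∧ coeff b R' < p)
    (h : C ((p : ℤ) ^ (s + 1)) ∣ (S ^ (s + 1) * R + C (p : ℤ) * T) -
      (S ^ (s + 1) * R' + C (p : ℤ) * T')) :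
    R = R' ∧ C ((p : ℤ) ^ s) ∣ T - T' := by
  have hpF : Fact p.Prime := ⟨hp⟩
  have h1 : C (p : ℤ) ∣ S ^ (s + 1) * (R - R') := by
    have h2 : C (p : ℤ) ∣ (S ^ (s + 1) * R + C (p : ℤ) * T) -
        (S ^ (s + 1) * R' + C (p : ℤ) * T') :=
      dvd_trans (map_dvd C (dvd_pow_self (p : ℤ) (Nat.succ_ne_zero s))) h
    have h3 : S ^ (s + 1) * (R - R') = ((S ^ (s + 1) * R + C (p : ℤ) * T) -
        (S ^ (s + 1) * R' + C (p : ℤ) * T')) - C (p : ℤ) * (T - T') := by ring
    rw [h3]
    exact dvd_sub h2 (dvd_mul_right _ _)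
  have h4 : map (Int.castRingHom (ZMod p)) (R - R') = 0 := by
    have h5 := (C_dvd_iff_zmod p _).mp h1
    rw [map_mul, map_pow] at h5
    rcases mul_eq_zero.mp h5 with h6 | h6
    · exact absurd h6 (pow_ne_zero _ hS)
    · exact h6
  have h7 : C (p : ℤ) ∣ R - R' := (C_dvd_iff_zmod p _).mpr h4
  rw [C_dvd_iff_dvd_coeff] at h7
  have hRR : R = R' := by
    ext b
    obtain ⟨c, hc⟩ := h7 b
    rw [coeff_sub] at hc
    have a1 := hR b
    have a2 := hR' b
    have hp0 : (0 : ℤ) < p := by exact_mod_cast hp.pos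
    have hc0 : c = 0 := by
      by_contra hne
      rcases lt_or_gt_of_ne hne with hlt | hgt
      · nlinarith
      · nlinarith
    rw [hc0, mul_zero] at hc
    omega
  refine ⟨hRR, ?_⟩
  subst hRR
  rw [C_dvd_iff_dvd_coeff] at h ⊢
  intro b
  have h8 := h b
  have h9 : (S ^ (s + 1) * R + C (p : ℤ) * T) - (S ^ (s + 1) * R + C (p : ℤ) * T') =
      C (p : ℤ) * (T - T') := by ring
  rw [h9, coeff_C_mul, pow_succ'] at h8
  exact (mul_dvd_mul_iff_left (by exact_mod_cast hp.ne_zero)).mp h8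

lemma family (p : ℕ) (hp : p.Prime) (S : MvPolynomial (Fin n) ℤ)
    (hS : map (Int.castRingHom (ZMod p)) S ≠ 0) (d : ℕ)
    (Good : ℕ → MvPolynomial (Fin n) ℤ → Prop)
    (g1 : ∀ s R, s ≤ d → R.support ⊆ sm S.support (d - s) → Good s (S ^ s * R))
    (g2 : ∀ s T, Good s T → Good (s + 1) (C (p : ℤ) * T))
    (g3 : ∀ s T T', Good s T → Good s T' → Good s (T + T')) :
    ∀ s, s ≤ d → ∃ G : Finset (MvPolynomial (Fin n) ℤ),
      G.card = p ^ (∑ j ∈ Finset.range s, (sm S.support (d - 1 - j)).card) ∧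
      (∀ T ∈ G, T.support ⊆ sm S.support d ∧ Good s T) ∧
      (∀ T ∈ G, ∀ T' ∈ G, C ((p : ℤ) ^ s) ∣ T - T' → T = T') := by
  classical
  intro s
  induction s with
  | zero =>
    intro _
    refine ⟨{0}, by simp, ?_, ?_⟩
    · intro T hT
      rw [Finset.mem_singleton] at hT
      subst hT
      refine ⟨by simp, ?_⟩
      have := g1 0 0 (Nat.zero_le _) (by simp)
      simpa using this
    · intro T hT T' hT' _
      rw [Finset.mem_singleton] at hT hT'
      rw [hT, hT']
  | succ s ih =>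
    intro hsd
    obtain ⟨G, hGc, hG1, hG2⟩ := ih (by omega)
    obtain ⟨R, hRc, hR⟩ := exists_R (sm S.support (d - 1 - s)) p
    have hRb : ∀ P ∈ R, ∀ b, 0 ≤ coeff b P ∧ coeff b P < p := by
      intro P hP b
      obtain ⟨h1, h2⟩ := hR P hP
      refine ⟨(h2 b).1, ?_⟩
      rcases (h2 b).2 with h3 | h3
      · exact h3
      · have h4 : coeff b P = 0 := by
          by_contra hne
          exact h3 (h1 (mem_support_iff.mpr hne))
        rw [h4]
        exact_mod_cast hp.pos
    have hds : d - 1 - s = d - (s + 1) := by omega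
    refine ⟨(R ×ˢ G).image (fun x => S ^ (s + 1) * x.1 + C (p : ℤ) * x.2), ?_, ?_, ?_⟩
    · rw [Finset.card_image_of_injOn, Finset.card_product, hRc, hGc, Finset.sum_range_succ,
        pow_add, mul_comm]
      rintro ⟨P, T⟩ hPT ⟨P', T'⟩ hPT' heq
      simp only [Finset.coe_product, Set.mem_prod, Finset.mem_coe] at hPT hPT'
      have h0 : C ((p : ℤ) ^ (s + 1)) ∣ (S ^ (s + 1) * P + C (p : ℤ) * T) -
          (S ^ (s + 1) * P' + C (p : ℤ) * T') := by
        dsimp only at heq
        rw [heq, sub_self]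
        exact dvd_zero _
      obtain ⟨h1, h2⟩ := inj_step p hp S hS s P P' T T' (hRb P hPT.1) (hRb P' hPT'.1) h0
      have h3 := hG2 T hPT.2 T' hPT'.2 h2
      rw [h1, h3]
    · intro T hT
      obtain ⟨⟨P, U⟩, hPU, rfl⟩ := Finset.mem_image.mp hT
      rw [Finset.mem_product] at hPU
      dsimp only at hPU ⊢
      have hsup : (S ^ (s + 1) * P).support ⊆ sm S.support d := by
        have := supp_mul S.support (s + 1) (d - 1 - s) (S ^ (s + 1)) P (supp_pow S _)
          (hR P hPU.1).1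
        have he : s + 1 + (d - 1 - s) = d := by omega
        rwa [he] at this
      refine ⟨?_, ?_⟩
      · intro b hb
        rcases Finset.mem_union.mp (support_add hb) with h1 | h1
        · exact hsup h1
        · apply (hG1 U hPU.2).1
          rw [mem_support_iff, coeff_C_mul] at h1
          exact mem_support_iff.mpr (right_ne_zero_of_mul h1)
      · exact g3 _ _ _ (g1 (s + 1) P hsd (by rw [← hds]; exact (hR P hPU.1).1))
          (g2 s U (hG1 U hPU.2).2)
    · intro T hT T' hT' hdvd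
      obtain ⟨⟨P, U⟩, hPU, rfl⟩ := Finset.mem_image.mp hT
      obtain ⟨⟨P', U'⟩, hPU', rfl⟩ := Finset.mem_image.mp hT'
      rw [Finset.mem_product] at hPU hPU'
      dsimp only at hPU hPU' hdvd ⊢
      obtain ⟨h1, h2⟩ := inj_step p hp S hS s P P' U U' (hRb P hPU.1) (hRb P' hPU'.1) hdvd
      have h3 := hG2 U hPU.2 U' hPU'.2 h2
      rw [h1, h3]

theorem pigeon (p : ℕ) (hp : p.Prime) (S : MvPolynomial (Fin n) ℤ)
    (hS : map (Int.castRingHom (ZMod p)) S ≠ 0) (d g : ℕ) (hg : g < d)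
    (hlt : g * (sm S.support d).card < ∑ i ∈ Finset.range d, (sm S.support i).card)
    (Good : ℕ → MvPolynomial (Fin n) ℤ → Prop)
    (g1 : ∀ s R, s ≤ d → R.support ⊆ sm S.support (d - s) → Good s (S ^ s * R))
    (g2 : ∀ s T, Good s T → Good (s + 1) (C (p : ℤ) * T))
    (g3 : ∀ s T T', Good s T → Good s T' → Good s (T + T'))
    (g4 : ∀ s T, Good s T → Good s (-T)) :
    ∃ T : MvPolynomial (Fin n) ℤ, T ≠ 0 ∧ T.support ⊆ sm S.support d ∧
      (∀ b, |coeff b T| < (p : ℤ) ^ (d - g)) ∧ Good d T := by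
  classical
  obtain ⟨G, hGc, hG1, hG2⟩ := family p hp S hS d Good g1 g2 g3 d le_rfl
  have hsum : ∑ j ∈ Finset.range d, (sm S.support (d - 1 - j)).card =
      ∑ i ∈ Finset.range d, (sm S.support i).card :=
    Finset.sum_range_reflect (fun i => (sm S.support i).card) d
  rw [hsum] at hGc
  set B := sm S.support d with hB
  have hp0 : (0 : ℤ) < p := by exact_mod_cast hp.pos
  set M : ℤ := (p : ℤ) ^ d with hM
  set W : ℤ := (p : ℤ) ^ (d - g) with hW
  have hMW : M = W * (p : ℤ) ^ g := by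
    rw [hM, hW, ← pow_add]
    congr 1
    omega
  have hMpos : 0 < M := by positivity
  have hWpos : 0 < W := by positivity
  -- the box map
  let q : MvPolynomial (Fin n) ℤ → (B → ℕ) := fun T b => ((coeff (b : Fin n →₀ ℕ) T % M) / W).toNat
  have hq : ∀ T ∈ G, q T ∈ Fintype.piFinset (fun _ : B => Finset.range (p ^ g)) := by
    intro T _
    rw [Fintype.mem_piFinset]
    intro b
    rw [Finset.mem_range]
    have h1 : 0 ≤ coeff (b : Fin n →₀ ℕ) T % M := Int.emod_nonneg _ hMpos.ne'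
    have h2 : coeff (b : Fin n →₀ ℕ) T % M < M := Int.emod_lt_of_pos _ hMpos
    have h3 : (coeff (b : Fin n →₀ ℕ) T % M) / W < (p : ℤ) ^ g := by
      apply Int.ediv_lt_of_lt_mul hWpos
      have h2' : coeff (b : Fin n →₀ ℕ) T % M < W * (p : ℤ) ^ g := by
        rw [← hMW]; exact h2
      linarith
    have h4 : 0 ≤ (coeff (b : Fin n →₀ ℕ) T % M) / W := Int.ediv_nonneg h1 hWpos.le
    show ((coeff (b : Fin n →₀ ℕ) T % M) / W).toNat < p ^ g
    rw [Int.toNat_lt h4]
    push_cast
    exact h3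
  have hcard : (Fintype.piFinset (fun _ : B => Finset.range (p ^ g))).card < G.card := by
    rw [hGc, Fintype.card_piFinset]
    simp only [Finset.card_range, Finset.prod_const, Finset.card_univ, Fintype.card_coe]
    rw [← pow_mul]
    exact Nat.pow_lt_pow_right hp.one_lt hlt
  obtain ⟨T1, hT1, T2, hT2, hne, heq⟩ :=
    Finset.exists_ne_map_eq_of_card_lt_of_maps_to hcard hq
  set T : MvPolynomial (Fin n) ℤ :=
    ∑ b ∈ B, monomial b (coeff b T1 % M - coeff b T2 % M) with hT
  set U : MvPolynomial (Fin n) ℤ :=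
    ∑ b ∈ B, monomial b (coeff b T1 / M - coeff b T2 / M) with hU
  have hco : ∀ (f : (Fin n →₀ ℕ) → ℤ) (b : Fin n →₀ ℕ),
      coeff b (∑ b' ∈ B, monomial b' (f b')) = if b ∈ B then f b else 0 := by
    intro f b
    rw [coeff_sum]
    simp only [coeff_monomial]
    rw [Finset.sum_ite_eq' B b f]
  have hT1s := (hG1 T1 hT1).1
  have hT2s := (hG1 T2 hT2).1
  have hz : ∀ P : MvPolynomial (Fin n) ℤ, P.support ⊆ B → ∀ b, b ∉ B → coeff b P = 0 := by
    intro P hP b hb
    by_contra hc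
    exact hb (hP (mem_support_iff.mpr hc))
  have hdecomp : T = T1 + -T2 + -(C M * U) := by
    ext b
    rw [coeff_add, coeff_add, coeff_neg, coeff_neg, coeff_C_mul, hT, hU, hco, hco]
    by_cases hb : b ∈ B
    · rw [if_pos hb, if_pos hb]
      have e1 := Int.emod_add_mul_ediv (coeff b T1) M
      have e2 := Int.emod_add_mul_ediv (coeff b T2) M
      linarith [mul_sub M (coeff b T1 / M) (coeff b T2 / M)]
    · rw [if_neg hb, if_neg hb, hz T1 hT1s b hb, hz T2 hT2s b hb]
      ring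
  refine ⟨T, ?_, ?_, ?_, ?_⟩
  · intro h0
    apply hne
    apply hG2 T1 hT1 T2 hT2
    rw [h0] at hdecomp
    have : T1 - T2 = C M * U := by linear_combination -hdecomp
    rw [this]
    exact dvd_mul_right _ _
  · intro b hb
    by_contra hbB
    rw [mem_support_iff, hT, hco, if_neg hbB] at hb
    exact hb rfl
  · intro b
    rw [hT, hco]
    by_cases hb : b ∈ B
    · rw [if_pos hb]
      have h1 := congrFun heq ⟨b, hb⟩
      have h2 : ((coeff b T1 % M) / W).toNat = ((coeff b T2 % M) / W).toNat := h1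
      have n1 : 0 ≤ coeff b T1 % M := Int.emod_nonneg _ hMpos.ne'
      have n2 : 0 ≤ coeff b T2 % M := Int.emod_nonneg _ hMpos.ne'
      have m1 : 0 ≤ (coeff b T1 % M) / W := Int.ediv_nonneg n1 hWpos.le
      have m2 : 0 ≤ (coeff b T2 % M) / W := Int.ediv_nonneg n2 hWpos.le
      have h3 : (coeff b T1 % M) / W = (coeff b T2 % M) / W := by
        have := congrArg (fun t : ℕ => (t : ℤ)) h2
        simpa [Int.toNat_of_nonneg m1, Int.toNat_of_nonneg m2] using this
      have e1 := Int.emod_add_mul_ediv (coeff b T1 % M) W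
      have e2 := Int.emod_add_mul_ediv (coeff b T2 % M) W
      have l1 := Int.emod_lt_of_pos (coeff b T1 % M) hWpos
      have l2 := Int.emod_lt_of_pos (coeff b T2 % M) hWpos
      have k1 := Int.emod_nonneg (coeff b T1 % M) hWpos.ne'
      have k2 := Int.emod_nonneg (coeff b T2 % M) hWpos.ne'
      rw [h3] at e1
      rw [abs_lt]
      constructor <;> linarith
    · rw [if_neg hb, abs_zero]
      exact hWpos
  · rw [hdecomp]
    refine g3 _ _ _ (g3 _ _ _ (hG1 T1 hT1).2 (g4 _ _ (hG1 T2 hT2).2)) (g4 _ _ ?_)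
    have hUs : U.support ⊆ B := by
      intro b hb
      by_contra hbB
      rw [mem_support_iff, hU, hco, if_neg hbB] at hb
      exact hb rfl
    have h0 : Good 0 U := by
      have := g1 0 U (Nat.zero_le _) (by simpa using hUs)
      simpa using this
    have hall : ∀ s, Good s (C ((p : ℤ) ^ s) * U) := by
      intro s
      induction s with
      | zero => simpa using h0
      | succ s ih =>
        have := g2 s _ ih
        rwa [← mul_assoc, ← C_mul, ← pow_succ'] at this
    exact hall d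

end Pool.Agent.HBD
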