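import Pool.Agent.HBD.BL
import Pool.Agent.HBD.Growth
import Pool.Agent.HBD.Pigeon

set_option autoImplicit false
set_option linter.unusedSectionVars false

namespace Pool.Agent.HBD

open NumberField MvPolynomial

lemma deg_of_supp {n : ℕ} (A : Finset (Fin n →₀ ℕ)) (N : ℕ) (hA : ∀ a ∈ A, ∑ i, a i ≤ N) (d : ℕ)
    (T : MvPolynomial (Fin n) ℤ) (hT : T.support ⊆ sm A d) : T.totalDegree ≤ d * N := by
  unfold totalDegree
  refine Finset.sup_le fun b hb => ?_
  rw [Finsupp.sum_fintype _ _ (fun _ => rfl)]
  exact sm_deg A N hA d b (hT hb)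

theorem core (p k : ℕ) (hp : p.Prime) : ∃ c : ℝ, 0 < c ∧
    ∀ (n : ℕ) (K : Type) [Field K] [NumberField K] (α : Fin n → K), MI α →
      ∀ S : MvPolynomial (Fin n) ℤ, map (Int.castRingHom (ZMod p)) S ≠ 0 → S.support.card ≤ k →
      ∀ N : ℕ, S.totalDegree ≤ N →
      (∀ v : FinitePlace K, v (aeval α S) ≤ v (p : K) * szF α v ^ N) →
      c ≤ N * wht K α := by
  obtain ⟨D, hD⟩ := growth k
  obtain ⟨c1, hc1, hBL⟩ := bounded_length ((D + 1) ^ k * p ^ D)
  refine ⟨min (Real.log 2) c1 / ((D : ℝ) + 1),
    div_pos (lt_min (Real.log_pos (by norm_num)) hc1) (by positivity), ?_⟩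
  intro n K _ _ α hα S hS hk N hN hv
  have hSne : S ≠ 0 := by
    rintro rfl
    exact hS (by simp)
  have hAne : S.support.Nonempty := support_nonempty.mpr hSne
  obtain ⟨d, g, hd1, hdD, hgd, h2g, hlt⟩ := hD (fun d => (sm S.support d).card)
    (by simp [sm_zero_card]) (sm_mono S.support hAne) (fun d => sm_card S.support k hk d)
  have hA : ∀ a ∈ S.support, ∑ i, a i ≤ N := fun a ha => (deg_sum S a ha).trans hN
  have hsz : ∀ v : FinitePlace K, 0 ≤ szF α v := fun v => zero_le_one.trans (one_le_szF α v)
  have hpK : ∀ v : FinitePlace K, v (p : K) ≤ 1 := fun v => nat_le_one v p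
  obtain ⟨T, hT0, hTs, hTc, hTv⟩ := pigeon p hp S hS d g hgd hlt
    (fun s T => ∀ v : FinitePlace K, v (aeval α T) ≤ v (p : K) ^ s * szF α v ^ (d * N))
    (by
      intro s R hsd hR v
      have h1 := hv v
      have h2 := evF α R ((d - s) * N) (deg_of_supp S.support N hA (d - s) R hR) v
      rw [map_mul, map_pow, map_mul, map_pow]
      calc v (aeval α S) ^ s * v (aeval α R)
          ≤ (v (p : K) * szF α v ^ N) ^ s * szF α v ^ ((d - s) * N) :=
            mul_le_mul (pow_le_pow_left₀ (apply_nonneg v _) h1 s) h2 (apply_nonneg v _)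
              (pow_nonneg (mul_nonneg (apply_nonneg v _) (pow_nonneg (hsz v) _)) _)
        _ = v (p : K) ^ s * (szF α v ^ (N * s) * szF α v ^ ((d - s) * N)) := by
            rw [mul_pow, ← pow_mul, mul_assoc]
        _ = v (p : K) ^ s * szF α v ^ (d * N) := by
            rw [← pow_add]
            congr 2
            obtain ⟨t, rfl⟩ := Nat.exists_eq_add_of_le hsd
            rw [Nat.add_sub_cancel_left]
            ring)
    (by
      intro s T hT v
      rw [map_mul, aeval_C, map_mul, pow_succ']
      have h1 : v ((algebraMap ℤ K) (p : ℤ)) = v (p : K) := by simp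
      rw [h1, mul_assoc]
      exact mul_le_mul_of_nonneg_left (hT v) (apply_nonneg v _))
    (by
      intro s T T' h1 h2 v
      rw [map_add]
      exact (FinitePlace.add_le v _ _).trans (max_le (h1 v) (h2 v)))
    (by
      intro s T h1 v
      rw [map_neg, FinitePlace.coe_apply, AbsoluteValue.map_neg]
      exact h1 v)
  have hTdeg := deg_of_supp S.support N hA d T hTs
  have hp1 : 1 ≤ p := hp.one_lt.le
  have hlen : len T ≤ ((sm S.support d).card * p ^ (d - g) : ℕ) := by
    unfold len
    calc ∑ a ∈ T.support, |((T.coeff a : ℤ) : ℝ)|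
        ≤ ∑ a ∈ T.support, ((p ^ (d - g) : ℕ) : ℝ) := by
          refine Finset.sum_le_sum fun a _ => ?_
          have := (hTc a).le
          have h3 : ((|coeff a T| : ℤ) : ℝ) ≤ (((p : ℤ) ^ (d - g) : ℤ) : ℝ) := by
            exact_mod_cast this
          push_cast at h3 ⊢
          exact h3
      _ = (T.support.card : ℝ) * ((p ^ (d - g) : ℕ) : ℝ) := by
          rw [Finset.sum_const, nsmul_eq_mul]
      _ ≤ _ := by
          push_cast
          refine mul_le_mul_of_nonneg_right ?_ (by positivity)
          exact_mod_cast Finset.card_le_card hTs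
  have hfd : (sm S.support d).card ≤ (D + 1) ^ k :=
    (sm_card S.support k hk d).trans (Nat.pow_le_pow_left (by omega) k)
  have hfpos : 0 < (sm S.support d).card := by
    have := sm_mono S.support hAne (Nat.zero_le d)
    simp only [sm_zero_card] at this
    omega
  have hNw : 0 ≤ (N : ℝ) * wht K α := mul_nonneg (by positivity) (wht_nonneg α)
  have hdD' : (d : ℝ) ≤ D := by exact_mod_cast hdD
  rw [div_le_iff₀ (by positivity)]
  by_cases h0 : aeval α T = 0
  · have h1 := hBL n K α hα T hT0 h0 (d * N) hTdeg (hlen.trans (by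
      have : (sm S.support d).card * p ^ (d - g) ≤ (D + 1) ^ k * p ^ D :=
        Nat.mul_le_mul hfd (Nat.pow_le_pow_right hp1 (by omega))
      exact_mod_cast this))
    push_cast at h1
    calc min (Real.log 2) c1 ≤ c1 := min_le_right _ _
      _ ≤ (d : ℝ) * N * wht K α := h1
      _ = (d : ℝ) * (N * wht K α) := by ring
      _ ≤ (D + 1) * (N * wht K α) := mul_le_mul_of_nonneg_right (by linarith) hNw
      _ = _ := by ring
  · have h1 := key α hα.1 h0 (d * N) d p hp.ne_zero (len T) (one_le_len T hT0)
      (fun w => evI α T (d * N) hTdeg w) hTv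
    have hp0 : (0 : ℝ) < p := by exact_mod_cast hp.pos
    have hf0 : (0 : ℝ) < (sm S.support d).card := by exact_mod_cast hfpos
    have h2 : Real.log (len T) ≤ Real.log (sm S.support d).card + (d - g : ℕ) * Real.log p := by
      rw [← Real.log_pow, ← Real.log_mul hf0.ne' (by positivity)]
      apply Real.log_le_log (by linarith [one_le_len T hT0])
      refine hlen.trans (le_of_eq ?_)
      push_cast
      ring
    have h3 : Real.log 2 + Real.log (sm S.support d).card ≤ g * Real.log p := by
      rw [← Real.log_mul (by norm_num) hf0.ne', ← Real.log_pow]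
      apply Real.log_le_log (by positivity)
      have h4 : 2 * (sm S.support d).card ≤ p ^ g :=
        h2g.trans (Nat.pow_le_pow_left hp.two_le g)
      exact_mod_cast h4
    have h5 : ((d - g : ℕ) : ℝ) = d - g := by
      rw [Nat.cast_sub hgd.le]
    rw [h5] at h2
    push_cast at h1
    calc min (Real.log 2) c1 ≤ Real.log 2 := min_le_left _ _
      _ ≤ (d : ℝ) * N * wht K α := by nlinarith
      _ = (d : ℝ) * (N * wht K α) := by ring
      _ ≤ (D + 1) * (N * wht K α) := mul_le_mul_of_nonneg_right (by linarith) hNw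
      _ = _ := by ring

/-- Lift of a polynomial over `ZMod p` with the same support. -/
lemma lift_poly {n : ℕ} (p : ℕ) [NeZero p] (S : MvPolynomial (Fin n) (ZMod p)) :
    ∃ S' : MvPolynomial (Fin n) ℤ, map (Int.castRingHom (ZMod p)) S' = S ∧
      S'.support ⊆ S.support := by
  classical
  refine ⟨∑ b ∈ S.support, monomial b ((coeff b S).val : ℤ), ?_, ?_⟩
  · rw [map_sum]
    simp only [map_monomial]
    have h1 := S.as_sum
    conv_rhs => rw [h1]
    refine Finset.sum_congr rfl fun b _ => ?_
    congr 1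
    simp
  · intro b hb
    by_contra hbS
    rw [mem_support_iff, coeff_sum] at hb
    apply hb
    refine Finset.sum_eq_zero fun b' hb' => ?_
    rw [coeff_monomial, if_neg]
    rintro rfl
    exact hbS hb'

lemma totalDegree_mono {n : ℕ} {R R' : Type} [CommSemiring R] [CommSemiring R']
    (P : MvPolynomial (Fin n) R) (Q : MvPolynomial (Fin n) R') (h : P.support ⊆ Q.support) :
    P.totalDegree ≤ Q.totalDegree := Finset.sup_mono h

theorem main (p k : ℕ) (hp : p.Prime) : ∃ c : ℝ, 0 < c ∧
    ∀ (n : ℕ) (K : Type) [Field K] [NumberField K] (α : Fin n → K), MI α →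
      ∀ (F : MvPolynomial (Fin n) ℤ) (S : MvPolynomial (Fin n) (ZMod p)) (N : ℕ),
        aeval α F = 0 → map (Int.castRingHom (ZMod p)) F ∣ S → S ≠ 0 → S.support.card ≤ k →
        F.totalDegree ≤ N → S.totalDegree ≤ N → c ≤ N * wht K α := by
  have hpF : Fact p.Prime := ⟨hp⟩
  obtain ⟨c, hc, hcore⟩ := core p k hp
  refine ⟨c / 2, by positivity, ?_⟩
  intro n K _ _ α hα F S N h0 hdvd hS hk hF hSN
  obtain ⟨H, hH⟩ := hdvd
  obtain ⟨S', hS', hS's⟩ := lift_poly p S
  obtain ⟨H', hH', hH's⟩ := lift_poly p H
  have hS'deg : S'.totalDegree ≤ N := (totalDegree_mono S' S hS's).trans hSN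
  have hFb : map (Int.castRingHom (ZMod p)) F ≠ 0 := by
    intro h
    rw [h, zero_mul] at hH
    exact hS hH
  have hHne : H ≠ 0 := by
    rintro rfl
    rw [mul_zero] at hH
    exact hS hH
  have hHdeg : H'.totalDegree ≤ N := by
    refine (totalDegree_mono H' H hH's).trans ?_
    have := totalDegree_mul_of_isDomain hFb hHne
    rw [← hH] at this
    omega
  have h1 : C (p : ℤ) ∣ S' - F * H' := by
    rw [C_dvd_iff_zmod, map_sub, map_mul, hS', hH', hH, sub_self]
  obtain ⟨G, hG⟩ := h1
  have hGdeg : G.totalDegree ≤ 2 * N := by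
    by_cases hG0 : G = 0
    · rw [hG0]; simp
    · have h2 : (C (p : ℤ) * G).totalDegree ≤ 2 * N := by
        rw [← hG]
        refine (totalDegree_sub _ _).trans (max_le (by omega) ?_)
        refine (totalDegree_mul _ _).trans ?_
        omega
      have hp0 : (C (p : ℤ) : MvPolynomial (Fin n) ℤ) ≠ 0 := by
        rw [Ne, C_eq_zero]
        exact_mod_cast hp.ne_zero
      rw [totalDegree_mul_of_isDomain hp0 hG0] at h2
      omega
  have h3 : aeval α S' = (p : K) * aeval α G := by
    have h4 : S' = F * H' + C (p : ℤ) * G := by rw [← hG]; ring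
    rw [h4, map_add, map_mul, h0, zero_mul, zero_add, map_mul, aeval_C]
    simp
  have h5 := hcore n K α hα S' (by rw [hS']; exact hS)
    ((Finset.card_le_card hS's).trans hk) (2 * N) (by omega) (by
      intro v
      rw [h3, map_mul]
      exact mul_le_mul_of_nonneg_left (evF α G (2 * N) hGdeg v) (apply_nonneg v _))
  push_cast at h5
  linarith

end Pool.Agent.HBD
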