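import Pool.Agent.HBD.Ht

set_option autoImplicit false
set_option linter.unusedSectionVars false

namespace Pool.Agent.HBD

open NumberField MvPolynomial

variable {K : Type} [Field K] [NumberField K] {n : ℕ}

/-- Sum of the absolute values of the coefficients. -/
noncomputable def len (F : MvPolynomial (Fin n) ℤ) : ℝ := ∑ a ∈ F.support, |((F.coeff a : ℤ) : ℝ)|

lemma aeval_eq (α : Fin n → K) (F : MvPolynomial (Fin n) ℤ) :
    aeval α F = ∑ a ∈ F.support, ((F.coeff a : ℤ) : K) * ∏ i, α i ^ a i := by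
  rw [aeval_def, eval₂_eq']
  rfl

lemma nat_le_one (v : FinitePlace K) (m : ℕ) : v (m : K) ≤ 1 := by
  induction m with
  | zero => simp
  | succ m ih =>
    push_cast
    refine (FinitePlace.add_le v _ _).trans (max_le ih ?_)
    rw [map_one]

lemma int_le_one (v : FinitePlace K) (m : ℤ) : v (m : K) ≤ 1 := by
  rcases Int.eq_nat_or_neg m with ⟨k, hk | hk⟩
  · rw [hk]; exact_mod_cast nat_le_one v k
  · rw [hk]
    push_cast
    rw [FinitePlace.coe_apply, AbsoluteValue.map_neg]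
    exact_mod_cast nat_le_one v k

lemma sum_le {ι : Type} (v : FinitePlace K) (s : Finset ι) (f : ι → K) (B : ℝ) (hB : 0 ≤ B)
    (h : ∀ i ∈ s, v (f i) ≤ B) : v (∑ i ∈ s, f i) ≤ B := by
  classical
  induction s using Finset.induction_on with
  | empty => simpa using hB
  | insert a s ha ih =>
    rw [Finset.sum_insert ha]
    refine (FinitePlace.add_le v _ _).trans (max_le ?_ ?_)
    · exact h a (Finset.mem_insert_self a s)
    · exact ih fun i hi => h i (Finset.mem_insert_of_mem hi)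

lemma deg_sum (F : MvPolynomial (Fin n) ℤ) (a : Fin n →₀ ℕ) (ha : a ∈ F.support) :
    ∑ i, a i ≤ F.totalDegree := by
  have := le_totalDegree ha
  rwa [Finsupp.sum_fintype _ _ (fun _ => rfl)] at this

lemma monF (α : Fin n → K) (v : FinitePlace K) (a : Fin n →₀ ℕ) (e : ℕ) (ha : ∑ i, a i ≤ e) :
    v (∏ i, α i ^ a i) ≤ szF α v ^ e := by
  rw [map_prod]
  calc ∏ i, v (α i ^ a i) ≤ ∏ i, szF α v ^ a i := by
        refine Finset.prod_le_prod (fun i _ => apply_nonneg v _) fun i _ => ?_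
        rw [map_pow]
        exact pow_le_pow_left₀ (apply_nonneg v _) (le_szF α v i) _
    _ = szF α v ^ (∑ i, a i) := by rw [Finset.prod_pow_eq_pow_sum]
    _ ≤ szF α v ^ e := pow_le_pow_right₀ (one_le_szF α v) ha

lemma monI (α : Fin n → K) (v : InfinitePlace K) (a : Fin n →₀ ℕ) (e : ℕ)
    (ha : ∑ i, a i ≤ e) :
    v (∏ i, α i ^ a i) ≤ szI α v ^ e := by
  rw [map_prod]
  calc ∏ i, v (α i ^ a i) ≤ ∏ i, szI α v ^ a i := by
        refine Finset.prod_le_prod (fun i _ => apply_nonneg v _) fun i _ => ?_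
        rw [map_pow]
        exact pow_le_pow_left₀ (apply_nonneg v _) (le_szI α v i) _
    _ = szI α v ^ (∑ i, a i) := by rw [Finset.prod_pow_eq_pow_sum]
    _ ≤ szI α v ^ e := pow_le_pow_right₀ (one_le_szI α v) ha

lemma evF (α : Fin n → K) (F : MvPolynomial (Fin n) ℤ) (e : ℕ) (he : F.totalDegree ≤ e)
    (v : FinitePlace K) : v (aeval α F) ≤ szF α v ^ e := by
  rw [aeval_eq]
  refine sum_le v _ _ _ (pow_nonneg (zero_le_one.trans (one_le_szF α v)) _) fun a ha => ?_
  rw [map_mul]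
  have h1 := int_le_one v (F.coeff a)
  have h2 := monF α v a e ((deg_sum F a ha).trans he)
  calc v ((F.coeff a : ℤ) : K) * v (∏ i, α i ^ a i) ≤ 1 * szF α v ^ e :=
        mul_le_mul h1 h2 (apply_nonneg v _) zero_le_one
    _ = _ := one_mul _

lemma infinite_int (w : InfinitePlace K) (m : ℤ) : w (m : K) = |(m : ℝ)| := by
  rw [← InfinitePlace.norm_embedding_eq w]
  rw [map_intCast]
  exact Complex.norm_intCast m

lemma evI (α : Fin n → K) (F : MvPolynomial (Fin n) ℤ) (e : ℕ) (he : F.totalDegree ≤ e)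
    (w : InfinitePlace K) : w (aeval α F) ≤ len F * szI α w ^ e := by
  rw [aeval_eq, len, Finset.sum_mul]
  have h0 : w (∑ a ∈ F.support, ((F.coeff a : ℤ) : K) * ∏ i, α i ^ a i) ≤
      ∑ a ∈ F.support, w (((F.coeff a : ℤ) : K) * ∏ i, α i ^ a i) :=
    w.1.sum_le F.support (fun a => ((F.coeff a : ℤ) : K) * ∏ i, α i ^ a i)
  refine h0.trans (Finset.sum_le_sum fun a ha => ?_)
  rw [map_mul, infinite_int]
  exact mul_le_mul_of_nonneg_left (monI α w a e ((deg_sum F a ha).trans he)) (abs_nonneg _)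

lemma one_le_len (F : MvPolynomial (Fin n) ℤ) (hF : F ≠ 0) : 1 ≤ len F := by
  obtain ⟨a, ha⟩ := support_nonempty.mpr hF
  have h1 : |((F.coeff a : ℤ) : ℝ)| ≤ len F :=
    Finset.single_le_sum (f := fun a => |((F.coeff a : ℤ) : ℝ)|) (fun _ _ => abs_nonneg _) ha
  refine le_trans ?_ h1
  have : F.coeff a ≠ 0 := mem_support_iff.mp ha
  have h2 : 1 ≤ |F.coeff a| := Int.one_le_abs this
  exact_mod_cast h2

end Pool.Agent.HBD
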