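import Mathlib

set_option autoImplicit false
set_option linter.unusedSectionVars false

namespace Pool.Agent.HBD

open MvPolynomial

variable {n : ℕ} {R : Type} [CommRing R] [IsDomain R]

/-- sum of all monomials of degree D in the variables from I -/
noncomputable def hh (R : Type) [CommRing R] (I : Finset (Fin n)) (D : ℕ) :
    MvPolynomial (Fin n) R :=
  ∑ a ∈ Finset.finsuppAntidiag I D, monomial a 1

/-- sum of all monomials of degree at most D in the variables from I -/
noncomputable def gg (R : Type) [CommRing R] (I : Finset (Fin n)) (D : ℕ) :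
    MvPolynomial (Fin n) R :=
  ∑ e ∈ Finset.range (D + 1), hh R I e

lemma coeff_hh (I : Finset (Fin n)) (D : ℕ) (a : Fin n →₀ ℕ) :
    coeff a (hh R I D) = if (∑ i ∈ I, a i = D) ∧ a.support ⊆ I then 1 else 0 := by
  classical
  unfold hh
  rw [coeff_sum]
  simp only [coeff_monomial]
  rw [Finset.sum_ite_eq']
  simp only [Finset.mem_finsuppAntidiag]

lemma coeff_gg (I : Finset (Fin n)) (D : ℕ) (a : Fin n →₀ ℕ) :
    coeff a (gg R I D) = if (∑ i ∈ I, a i ≤ D) ∧ a.support ⊆ I then 1 else 0 := by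
  classical
  unfold gg
  rw [coeff_sum]
  simp only [coeff_hh]
  by_cases h : a.support ⊆ I
  · simp only [h, and_true]
    rw [Finset.sum_ite_eq]
    simp
  · simp [h]

lemma coeff_Xhh (I : Finset (Fin n)) (D : ℕ) (b : Fin n) (hb : b ∈ I) (e : Fin n →₀ ℕ) :
    coeff e (X b * hh R I D) =
      if e b ≠ 0 ∧ (∑ i ∈ I, e i = D + 1) ∧ e.support ⊆ I then 1 else 0 := by
  classical
  rw [coeff_X_mul']
  by_cases h : e b = 0
  · simp [h]
  · have h1 : b ∈ e.support := Finsupp.mem_support_iff.mpr h
    rw [if_pos h1, coeff_hh]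
    have h2 : (∑ i ∈ I, (e - Finsupp.single b 1 : Fin n →₀ ℕ) i) + 1 = ∑ i ∈ I, e i := by
      have k1 := Finset.add_sum_erase I (fun i => e i) hb
      have k2 := Finset.add_sum_erase I (fun i => (e - Finsupp.single b 1 : Fin n →₀ ℕ) i) hb
      have k4 : (e - Finsupp.single b 1 : Fin n →₀ ℕ) b = e b - 1 := by simp
      have h3 : ∀ i ∈ I.erase b, (e - Finsupp.single b 1 : Fin n →₀ ℕ) i = e i := by
        intro i hi
        have := Finset.ne_of_mem_erase hi
        simp only [Finsupp.coe_tsub, Pi.sub_apply, Finsupp.single_apply]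
        rw [if_neg (fun h => this h.symm)]
        omega
      have k3 : ∑ i ∈ I.erase b, (e - Finsupp.single b 1 : Fin n →₀ ℕ) i =
          ∑ i ∈ I.erase b, e i := Finset.sum_congr rfl h3
      omega
    have h4 : (e - Finsupp.single b 1 : Fin n →₀ ℕ).support ⊆ I ↔ e.support ⊆ I := by
      constructor
      · intro hs i hi
        by_cases hib : i = b
        · rw [hib]; exact hb
        · apply hs
          rw [Finsupp.mem_support_iff] at hi ⊢
          simp only [Finsupp.coe_tsub, Pi.sub_apply, Finsupp.single_apply]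
          rw [if_neg (fun h => hib h.symm)]
          omega
      · intro hs i hi
        apply hs
        rw [Finsupp.mem_support_iff] at hi ⊢
        simp only [Finsupp.coe_tsub, Pi.sub_apply] at hi
        omega
    have h5 : (∑ i ∈ I, (e - Finsupp.single b 1 : Fin n →₀ ℕ) i = D) ↔ (∑ i ∈ I, e i = D + 1) := by omega
    simp only [h, ne_eq, not_false_eq_true, true_and, h4, h5]

lemma coeff_Xgg (I : Finset (Fin n)) (D : ℕ) (b : Fin n) (hb : b ∈ I) (e : Fin n →₀ ℕ) :
    coeff e (X b * gg R I D) =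
      if e b ≠ 0 ∧ (∑ i ∈ I, e i ≤ D + 1) ∧ e.support ⊆ I then 1 else 0 := by
  classical
  unfold gg
  rw [Finset.mul_sum, coeff_sum]
  simp only [coeff_Xhh I _ b hb e]
  by_cases h : e b ≠ 0 ∧ e.support ⊆ I
  · have h1 : ∀ x, (e b ≠ 0 ∧ (∑ i ∈ I, e i = x + 1) ∧ e.support ⊆ I) ↔
        (∑ i ∈ I, e i) - 1 = x := by
      intro x
      have h2 : 1 ≤ ∑ i ∈ I, e i := by
        have h3 : e b ≤ ∑ i ∈ I, e i := Finset.single_le_sum (f := fun i => e i)
          (fun _ _ => Nat.zero_le _) hb
        have := h.1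
        omega
      constructor
      · rintro ⟨_, h3, _⟩
        omega
      · intro h3
        exact ⟨h.1, by omega, h.2⟩
    simp only [h1]
    rw [Finset.sum_ite_eq]
    have h4 : ((∑ i ∈ I, e i) - 1 ∈ Finset.range (D + 1)) ↔
        (e b ≠ 0 ∧ (∑ i ∈ I, e i ≤ D + 1) ∧ e.support ⊆ I) := by
      rw [Finset.mem_range]
      constructor
      · intro h5
        exact ⟨h.1, by omega, h.2⟩
      · rintro ⟨_, h5, _⟩
        omega
    simp only [h4]
  · rw [if_neg (fun h2 => h ⟨h2.1, h2.2.2⟩)]
    refine Finset.sum_eq_zero fun x _ => ?_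
    rw [if_neg (fun h2 => h ⟨h2.1, h2.2.2⟩)]

lemma erase_iff (I : Finset (Fin n)) (b : Fin n) (e : Fin n →₀ ℕ) :
    e.support ⊆ I.erase b ↔ e b = 0 ∧ e.support ⊆ I := by
  classical
  constructor
  · intro h
    refine ⟨?_, h.trans (Finset.erase_subset _ _)⟩
    by_contra hne
    have := h (Finsupp.mem_support_iff.mpr hne)
    exact (Finset.notMem_erase b I) this
  · rintro ⟨h1, h2⟩ i hi
    refine Finset.mem_erase.mpr ⟨?_, h2 hi⟩
    rintro rfl
    exact (Finsupp.mem_support_iff.mp hi) h1

lemma erase_sum (I : Finset (Fin n)) (b : Fin n) (hb : b ∈ I) (e : Fin n →₀ ℕ) (h : e b = 0) :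
    ∑ i ∈ I.erase b, e i = ∑ i ∈ I, e i := by
  classical
  rw [← Finset.add_sum_erase I (fun i => e i) hb, h, zero_add]

lemma id1 (I : Finset (Fin n)) (D : ℕ) (a b : Fin n) (ha : a ∈ I) (hb : b ∈ I) :
    (X a - X b) * hh R I D = hh R (I.erase b) (D + 1) - hh R (I.erase a) (D + 1) := by
  classical
  ext e
  rw [sub_mul, coeff_sub, coeff_sub, coeff_Xhh I D a ha, coeff_Xhh I D b hb, coeff_hh, coeff_hh]
  simp only [erase_iff]
  by_cases h1 : e a = 0 <;> by_cases h2 : e b = 0
  · simp only [h1, h2, erase_sum I a ha e h1, erase_sum I b hb e h2]; simp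
  · simp only [h1, h2, erase_sum I a ha e h1]; simp [h2]
  · simp only [h1, h2, erase_sum I b hb e h2]; simp [h1]
  · simp only [h1, h2]; simp [h1, h2]

lemma id2 (I : Finset (Fin n)) (D : ℕ) (b : Fin n) (hb : b ∈ I) :
    (1 - X b) * gg R I D = gg R (I.erase b) (D + 1) - hh R I (D + 1) := by
  classical
  ext e
  rw [sub_mul, one_mul, coeff_sub, coeff_sub, coeff_Xgg I D b hb, coeff_gg, coeff_gg, coeff_hh]
  simp only [erase_iff]
  by_cases hs : e.support ⊆ I
  · by_cases h2 : e b = 0
    · simp only [hs, h2, erase_sum I b hb e h2, and_true, ne_eq, not_true_eq_false, false_and,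
        if_false, sub_zero, true_and]
      by_cases h3 : ∑ i ∈ I, e i ≤ D
      · rw [if_pos h3, if_pos (by omega), if_neg (by omega), sub_zero]
      · by_cases h4 : ∑ i ∈ I, e i = D + 1
        · rw [if_neg h3, if_pos (by omega), if_pos h4, sub_self]
        · rw [if_neg h3, if_neg (by omega), if_neg h4, sub_zero]
    · simp only [hs, h2, and_true, ne_eq, not_false_eq_true, false_and, and_false,
        if_false, true_and]
      by_cases h3 : ∑ i ∈ I, e i ≤ D
      · rw [if_pos h3, if_pos (by omega), if_neg (by omega)]; ring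
      · by_cases h4 : ∑ i ∈ I, e i = D + 1
        · rw [if_neg h3, if_pos (by omega), if_pos h4]
        · rw [if_neg h3, if_neg (by omega), if_neg h4]
  · simp [hs]

lemma card_mul (P Q : MvPolynomial (Fin n) R) :
    (P * Q).support.card ≤ P.support.card * Q.support.card := by
  classical
  exact (Finset.card_le_card (support_mul P Q)).trans (Finset.card_add_le)

lemma card_sub (P Q : MvPolynomial (Fin n) R) :
    (P - Q).support.card ≤ P.support.card + Q.support.card := by
  classical
  exact (Finset.card_le_card (support_sub _ P Q)).trans (Finset.card_union_le _ _)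

/-- nonzero modulo every prime -/
def PrimitiveAt (Q : MvPolynomial (Fin n) ℤ) : Prop :=
  ∀ p : ℕ, p.Prime → map (Int.castRingHom (ZMod p)) Q ≠ 0

lemma PrimitiveAt.mul {P Q : MvPolynomial (Fin n) ℤ} (hP : PrimitiveAt P) (hQ : PrimitiveAt Q) :
    PrimitiveAt (P * Q) := by
  intro p hp
  have hpF : Fact p.Prime := ⟨hp⟩
  rw [map_mul]
  exact mul_ne_zero (hP p hp) (hQ p hp)

lemma PrimitiveAt.one : PrimitiveAt (1 : MvPolynomial (Fin n) ℤ) := by
  intro p hp
  have hpF : Fact p.Prime := ⟨hp⟩
  rw [map_one]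
  exact one_ne_zero

lemma primitive_sub (a b : Fin n) (hab : a ≠ b) :
    PrimitiveAt (X a - X b : MvPolynomial (Fin n) ℤ) := by
  intro p hp
  have hpF : Fact p.Prime := ⟨hp⟩
  rw [map_sub, map_X, map_X, sub_ne_zero]
  intro h
  exact hab (X_injective h)

lemma primitive_one_sub (b : Fin n) : PrimitiveAt (1 - X b : MvPolynomial (Fin n) ℤ) := by
  intro p hp
  have hpF : Fact p.Prime := ⟨hp⟩
  rw [map_sub, map_X, map_one, sub_ne_zero]
  intro h
  have h2 := congrArg (coeff 0) h
  rw [coeff_one, if_pos rfl, coeff_X, if_neg] at h2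
  · exact one_ne_zero h2
  · exact Finsupp.single_ne_zero.mpr one_ne_zero

lemma hh_sparse (m : ℕ) : ∀ I : Finset (Fin n), I.card = m + 1 →
    ∃ (Q : MvPolynomial (Fin n) ℤ) (C : ℕ), PrimitiveAt Q ∧
      ∀ D, (Q * hh ℤ I D).support.card ≤ C := by
  classical
  induction m with
  | zero =>
    intro I hI
    obtain ⟨a, rfl⟩ := Finset.card_eq_one.mp hI
    refine ⟨1, 1, PrimitiveAt.one, fun D => ?_⟩
    rw [one_mul]
    have : (hh ℤ {a} D : MvPolynomial (Fin n) ℤ).support ⊆ {Finsupp.single a D} := by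
      intro e he
      rw [mem_support_iff, coeff_hh] at he
      have h1 : (∑ i ∈ {a}, e i = D) ∧ e.support ⊆ {a} := by
        by_contra hc
        rw [if_neg hc] at he
        exact he rfl
      rw [Finset.sum_singleton] at h1
      rw [Finset.mem_singleton]
      ext i
      by_cases hi : i = a
      · rw [hi, h1.1]; simp
      · have h2 : e i = 0 := by
          by_contra hne
          exact hi (Finset.mem_singleton.mp (h1.2 (Finsupp.mem_support_iff.mpr hne)))
        rw [h2, Finsupp.single_apply, if_neg (fun h => hi h.symm)]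
    calc _ ≤ ({Finsupp.single a D} : Finset (Fin n →₀ ℕ)).card := Finset.card_le_card this
      _ = 1 := Finset.card_singleton _
  | succ m ih =>
    intro I hI
    obtain ⟨a, ha, b, hb, hab⟩ := Finset.one_lt_card.mp (by omega : 1 < I.card)
    obtain ⟨Qa, Ca, hQa, hCa⟩ := ih (I.erase a) (by rw [Finset.card_erase_of_mem ha]; omega)
    obtain ⟨Qb, Cb, hQb, hCb⟩ := ih (I.erase b) (by rw [Finset.card_erase_of_mem hb]; omega)
    refine ⟨(X a - X b) * Qa * Qb, Qa.support.card * Cb + Qb.support.card * Ca,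
      ((primitive_sub a b hab).mul hQa).mul hQb, fun D => ?_⟩
    have h1 : (X a - X b) * Qa * Qb * hh ℤ I D =
        Qa * (Qb * hh ℤ (I.erase b) (D + 1)) - Qb * (Qa * hh ℤ (I.erase a) (D + 1)) := by
      have := id1 (R := ℤ) I D a b ha hb
      linear_combination (Qa * Qb) * this
    rw [h1]
    refine (card_sub _ _).trans (add_le_add ?_ ?_)
    · exact (card_mul _ _).trans (Nat.mul_le_mul_left _ (hCb (D + 1)))
    · exact (card_mul _ _).trans (Nat.mul_le_mul_left _ (hCa (D + 1)))

lemma gg_sparse (m : ℕ) : ∀ I : Finset (Fin n), I.card = m →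
    ∃ (Q : MvPolynomial (Fin n) ℤ) (C : ℕ), PrimitiveAt Q ∧
      ∀ D, (Q * gg ℤ I D).support.card ≤ C := by
  classical
  induction m with
  | zero =>
    intro I hI
    rw [Finset.card_eq_zero] at hI
    subst hI
    refine ⟨1, 1, PrimitiveAt.one, fun D => ?_⟩
    rw [one_mul]
    have : (gg ℤ ∅ D : MvPolynomial (Fin n) ℤ).support ⊆ {0} := by
      intro e he
      rw [mem_support_iff, coeff_gg] at he
      have h1 : (∑ i ∈ ∅, e i ≤ D) ∧ e.support ⊆ ∅ := by
        by_contra hc
        rw [if_neg hc] at he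
        exact he rfl
      rw [Finset.mem_singleton]
      exact Finsupp.support_eq_empty.mp (Finset.subset_empty.mp h1.2)
    calc _ ≤ ({0} : Finset (Fin n →₀ ℕ)).card := Finset.card_le_card this
      _ = 1 := Finset.card_singleton _
  | succ m ih =>
    intro I hI
    obtain ⟨b, hb⟩ := Finset.card_pos.mp (by omega : 0 < I.card)
    obtain ⟨Qb, Cb, hQb, hCb⟩ := ih (I.erase b) (by rw [Finset.card_erase_of_mem hb]; omega)
    obtain ⟨Qh, Ch, hQh, hCh⟩ := hh_sparse m I hI
    refine ⟨(1 - X b) * Qb * Qh, Qh.support.card * Cb + Qb.support.card * Ch,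
      ((primitive_one_sub b).mul hQb).mul hQh, fun D => ?_⟩
    have h1 : (1 - X b) * Qb * Qh * gg ℤ I D =
        Qh * (Qb * gg ℤ (I.erase b) (D + 1)) - Qb * (Qh * hh ℤ I (D + 1)) := by
      have := id2 (R := ℤ) I D b hb
      linear_combination (Qb * Qh) * this
    rw [h1]
    refine (card_sub _ _).trans (add_le_add ?_ ?_)
    · exact (card_mul _ _).trans (Nat.mul_le_mul_left _ (hCb (D + 1)))
    · exact (card_mul _ _).trans (Nat.mul_le_mul_left _ (hCh (D + 1)))

end Pool.Agent.HBD
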