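import Mathlib

set_option autoImplicit false
set_option linter.unusedSectionVars false

namespace Pool.Agent.HBD

open NumberField MvPolynomial

variable {K : Type} [Field K] [NumberField K] {n : ℕ}

/-- The absolute logarithmic Weil height of the projective point (1 : a_1 : ... : a_n). -/
noncomputable def wht (K : Type) [Field K] [NumberField K] {n : ℕ} (α : Fin n → K) : ℝ :=
  (1 / (Module.finrank ℚ K : ℝ)) *
        ((∑ w : NumberField.InfinitePlace K,
            (w.mult : ℝ) * Real.log (max 1 (⨆ i, w (α i)))) +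
         ∑ᶠ v : NumberField.FinitePlace K, Real.log (max 1 (⨆ i, v (α i))))

noncomputable def szI (α : Fin n → K) (w : InfinitePlace K) : ℝ := max 1 (⨆ i, w (α i))
noncomputable def szF (α : Fin n → K) (v : FinitePlace K) : ℝ := max 1 (⨆ i, v (α i))

lemma one_le_szI (α : Fin n → K) (w : InfinitePlace K) : 1 ≤ szI α w := le_max_left _ _
lemma one_le_szF (α : Fin n → K) (v : FinitePlace K) : 1 ≤ szF α v := le_max_left _ _

lemma le_szI (α : Fin n → K) (w : InfinitePlace K) (i : Fin n) : w (α i) ≤ szI α w :=
  (le_ciSup (f := fun i => w (α i)) (Set.finite_range _).bddAbove i).trans (le_max_right _ _)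
lemma le_szF (α : Fin n → K) (v : FinitePlace K) (i : Fin n) : v (α i) ≤ szF α v :=
  (le_ciSup (f := fun i => v (α i)) (Set.finite_range _).bddAbove i).trans (le_max_right _ _)

lemma szF_le (α : Fin n → K) (v : FinitePlace K) (B : ℝ) (hB : 1 ≤ B)
    (h : ∀ i, v (α i) ≤ B) : szF α v ≤ B := by
  refine max_le hB ?_
  rcases isEmpty_or_nonempty (Fin n) with hn | hn
  · rw [Real.iSup_of_isEmpty]; linarith
  · exact ciSup_le h

lemma szI_le (α : Fin n → K) (v : InfinitePlace K) (B : ℝ) (hB : 1 ≤ B)
    (h : ∀ i, v (α i) ≤ B) : szI α v ≤ B := by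
  refine max_le hB ?_
  rcases isEmpty_or_nonempty (Fin n) with hn | hn
  · rw [Real.iSup_of_isEmpty]; linarith
  · exact ciSup_le h

lemma fin_ne_one {x : K} (hx : x ≠ 0) : {v : FinitePlace K | v x ≠ 1}.Finite := by
  have := FinitePlace.hasFiniteMulSupport (K := K) hx
  exact this

lemma szF_finite (α : Fin n → K) (hα : ∀ i, α i ≠ 0) :
    {v : FinitePlace K | szF α v ≠ 1}.Finite := by
  have h : (⋃ i, {v : FinitePlace K | v (α i) ≠ 1}).Finite :=
    Set.finite_iUnion fun i => fin_ne_one (hα i)
  refine h.subset ?_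
  intro v hv
  by_contra hc
  apply hv
  simp only [Set.mem_iUnion, not_exists] at hc
  apply le_antisymm
  · refine szF_le α v 1 le_rfl fun i => ?_
    have := hc i
    have h1 : v (α i) = 1 := by
      by_contra h2
      exact this h2
    exact h1.le
  · exact one_le_szF α v

lemma log_prod {x : K} (hx : x ≠ 0) (Z : Finset (FinitePlace K)) (hZ : ∀ v, v x ≠ 1 → v ∈ Z) :
    (∑ w : InfinitePlace K, (w.mult : ℝ) * Real.log (w x)) + ∑ v ∈ Z, Real.log (v x) = 0 := by
  have h := prod_abs_eq_one (K := K) hx
  have h1 : (∏ᶠ w : FinitePlace K, w x) = ∏ v ∈ Z, v x := by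
    apply finprod_eq_prod_of_mulSupport_subset
    intro v hv
    exact hZ v hv
  rw [h1] at h
  have hI : ∀ w : InfinitePlace K, w x ≠ 0 := fun w => by
    have := (InfinitePlace.pos_iff (w := w) (x := x)).mpr hx
    exact this.ne'
  have hF : ∀ w : FinitePlace K, w x ≠ 0 := fun w => by
    have := (FinitePlace.pos_iff (w := w) (x := x)).mpr hx
    exact this.ne'
  have h2 := congrArg Real.log h
  rw [Real.log_mul (Finset.prod_ne_zero_iff.mpr fun w _ => pow_ne_zero _ (hI w))
    (Finset.prod_ne_zero_iff.mpr fun w _ => hF w), Real.log_one,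
    Real.log_prod (fun w _ => pow_ne_zero _ (hI w)), Real.log_prod (fun w _ => hF w)] at h2
  simpa [Real.log_pow] using h2

lemma wht_eq (α : Fin n → K) (Z : Finset (FinitePlace K)) (hZ : ∀ v, szF α v ≠ 1 → v ∈ Z) :
    (Module.finrank ℚ K : ℝ) * wht K α =
      (∑ w : InfinitePlace K, (w.mult : ℝ) * Real.log (szI α w)) +
        ∑ v ∈ Z, Real.log (szF α v) := by
  have hd : (Module.finrank ℚ K : ℝ) ≠ 0 := by
    have : 0 < Module.finrank ℚ K := Module.finrank_pos
    positivity
  have h1 : (∑ᶠ v : FinitePlace K, Real.log (szF α v)) = ∑ v ∈ Z, Real.log (szF α v) := by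
    apply finsum_eq_sum_of_support_subset
    intro v hv
    apply hZ v
    intro hc
    apply hv
    simp [hc]
  unfold wht
  rw [← h1, ← mul_assoc, mul_one_div_cancel hd, one_mul]
  rfl

lemma wht_nonneg (α : Fin n → K) : 0 ≤ wht K α := by
  unfold wht
  apply mul_nonneg (by positivity)
  apply add_nonneg
  · refine Finset.sum_nonneg fun w _ => mul_nonneg (by positivity) (Real.log_nonneg (le_max_left _ _))
  · exact finsum_nonneg fun v => Real.log_nonneg (le_max_left _ _)

lemma key (α : Fin n → K) (hα : ∀ i, α i ≠ 0) {x : K} (hx : x ≠ 0) (e s p : ℕ) (hp : p ≠ 0)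
    (L : ℝ) (hL : 1 ≤ L)
    (hI : ∀ w : InfinitePlace K, w x ≤ L * szI α w ^ e)
    (hF : ∀ v : FinitePlace K, v x ≤ v (p : K) ^ s * szF α v ^ e) :
    (s : ℝ) * Real.log p ≤ Real.log L + e * wht K α := by
  classical
  have hpK : (p : K) ≠ 0 := by exact_mod_cast hp
  set d : ℕ := Module.finrank ℚ K with hd
  have hdpos : (0 : ℝ) < d := by
    have : 0 < Module.finrank ℚ K := Module.finrank_pos
    exact_mod_cast this
  set Z : Finset (FinitePlace K) :=
    (fin_ne_one hx).toFinset ∪ (fin_ne_one hpK).toFinset ∪ (szF_finite α hα).toFinset with hZdef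
  have hZx : ∀ v : FinitePlace K, v x ≠ 1 → v ∈ Z := fun v hv => by
    simp only [hZdef, Finset.mem_union, Set.Finite.mem_toFinset, Set.mem_ofPred_eq]
    exact Or.inl (Or.inl hv)
  have hZp : ∀ v : FinitePlace K, v (p : K) ≠ 1 → v ∈ Z := fun v hv => by
    simp only [hZdef, Finset.mem_union, Set.Finite.mem_toFinset, Set.mem_ofPred_eq]
    exact Or.inl (Or.inr hv)
  have hZa : ∀ v : FinitePlace K, szF α v ≠ 1 → v ∈ Z := fun v hv => by
    simp only [hZdef, Finset.mem_union, Set.Finite.mem_toFinset, Set.mem_ofPred_eq]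
    exact Or.inr hv
  have e1 := log_prod hx Z hZx
  have e2 := log_prod hpK Z hZp
  have e3 := wht_eq α Z hZa
  have hmult : (∑ w : InfinitePlace K, (w.mult : ℝ)) = d := by
    have := InfinitePlace.sum_mult_eq (K := K)
    rw [hd, ← this]
    push_cast
    rfl
  have hwp : ∀ w : InfinitePlace K, w (p : K) = p := fun w => by
    rw [← InfinitePlace.norm_embedding_eq w]
    simp
  have e2' : (d : ℝ) * Real.log p + ∑ v ∈ Z, Real.log (v (p : K)) = 0 := by
    rw [← e2, ← hmult, Finset.sum_mul]
    congr 1
    refine Finset.sum_congr rfl fun w _ => ?_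
    rw [hwp w]
  have b1 : (∑ w : InfinitePlace K, (w.mult : ℝ) * Real.log (w x)) ≤
      d * Real.log L + e * ∑ w : InfinitePlace K, (w.mult : ℝ) * Real.log (szI α w) := by
    rw [← hmult, Finset.sum_mul, Finset.mul_sum, ← Finset.sum_add_distrib]
    refine Finset.sum_le_sum fun w _ => ?_
    have hs : 0 < szI α w := lt_of_lt_of_le one_pos (one_le_szI α w)
    have hw : 0 < w x := (InfinitePlace.pos_iff (w := w) (x := x)).mpr hx
    have h3 : Real.log (w x) ≤ Real.log L + e * Real.log (szI α w) := by
      have h4 := Real.log_le_log hw (hI w)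
      rwa [Real.log_mul (by positivity) (by positivity), Real.log_pow] at h4
    have h5 : (0 : ℝ) ≤ w.mult := by positivity
    nlinarith [mul_le_mul_of_nonneg_left h3 h5]
  have b2 : (∑ v ∈ Z, Real.log (v x)) ≤
      s * ∑ v ∈ Z, Real.log (v (p : K)) + e * ∑ v ∈ Z, Real.log (szF α v) := by
    rw [Finset.mul_sum, Finset.mul_sum, ← Finset.sum_add_distrib]
    refine Finset.sum_le_sum fun v _ => ?_
    have hs : 0 < szF α v := lt_of_lt_of_le one_pos (one_le_szF α v)
    have hv : 0 < v x := (FinitePlace.pos_iff (w := v) (x := x)).mpr hx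
    have hvp : 0 < v (p : K) := (FinitePlace.pos_iff (w := v) (x := (p : K))).mpr hpK
    have h4 := Real.log_le_log hv (hF v)
    rwa [Real.log_mul (by positivity) (by positivity), Real.log_pow, Real.log_pow] at h4
  have b3 : (0 : ℝ) ≤ d * Real.log L + e * (d * wht K α) - s * (d * Real.log p) := by
    rw [e3]
    have : (∑ v ∈ Z, Real.log (v (p : K))) = - (d * Real.log p) := by linarith
    rw [this] at b2
    nlinarith [b1, b2, e1]
  have b4 : (0 : ℝ) ≤ d * (Real.log L + e * wht K α - s * Real.log p) := by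
    have : d * (Real.log L + e * wht K α - s * Real.log p) =
      d * Real.log L + e * (d * wht K α) - s * (d * Real.log p) := by ring
    rw [this]; exact b3
  have b5 := nonneg_of_mul_nonneg_right b4 hdpos
  linarith

lemma szF_pow (α : Fin n → K) (m : ℕ) (v : FinitePlace K) :
    szF (fun i => α i ^ m) v = szF α v ^ m := by
  apply le_antisymm
  · refine szF_le _ v _ (one_le_pow₀ (one_le_szF α v)) fun i => ?_
    rw [map_pow]
    exact pow_le_pow_left₀ (apply_nonneg v _) (le_szF α v i) m
  · rcases max_choice (1 : ℝ) (⨆ i, v (α i)) with h | h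
    · have : szF α v = 1 := h
      rw [this, one_pow]
      exact one_le_szF _ v
    · rcases isEmpty_or_nonempty (Fin n) with hn | hn
      · have : szF α v = 1 := by
          unfold szF
          rw [Real.iSup_of_isEmpty]
          simp
        rw [this, one_pow]
        exact one_le_szF _ v
      · obtain ⟨i, hi⟩ := exists_eq_ciSup_of_finite (f := fun i => v (α i))
        have : szF α v = v (α i) := by
          unfold szF
          rw [h, ← hi]
        rw [this, ← map_pow]
        exact le_szF (fun i => α i ^ m) v i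

lemma szI_pow (α : Fin n → K) (m : ℕ) (v : InfinitePlace K) :
    szI (fun i => α i ^ m) v = szI α v ^ m := by
  apply le_antisymm
  · refine szI_le _ v _ (one_le_pow₀ (one_le_szI α v)) fun i => ?_
    rw [map_pow]
    exact pow_le_pow_left₀ (apply_nonneg v _) (le_szI α v i) m
  · rcases max_choice (1 : ℝ) (⨆ i, v (α i)) with h | h
    · have : szI α v = 1 := h
      rw [this, one_pow]
      exact one_le_szI _ v
    · rcases isEmpty_or_nonempty (Fin n) with hn | hn
      · have : szI α v = 1 := by
          unfold szI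
          rw [Real.iSup_of_isEmpty]
          simp
        rw [this, one_pow]
        exact one_le_szI _ v
      · obtain ⟨i, hi⟩ := exists_eq_ciSup_of_finite (f := fun i => v (α i))
        have : szI α v = v (α i) := by
          unfold szI
          rw [h, ← hi]
        rw [this, ← map_pow]
        exact le_szI (fun i => α i ^ m) v i

lemma wht_pow (α : Fin n → K) (m : ℕ) :
    wht K (fun i => α i ^ m) = m * wht K α := by
  have h1 : ∀ v : FinitePlace K,
      Real.log (max 1 (⨆ i, v (α i ^ m))) = m * Real.log (max 1 (⨆ i, v (α i))) := fun v => by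
    have := szF_pow α m v
    unfold szF at this
    rw [this, Real.log_pow]
  have h2 : ∀ v : InfinitePlace K,
      Real.log (max 1 (⨆ i, v (α i ^ m))) = m * Real.log (max 1 (⨆ i, v (α i))) := fun v => by
    have := szI_pow α m v
    unfold szI at this
    rw [this, Real.log_pow]
  unfold wht
  simp_rw [h1, h2]
  have h3 : (∑ᶠ v : FinitePlace K, (m : ℝ) * Real.log (max 1 (⨆ i, v (α i)))) =
      m * ∑ᶠ v : FinitePlace K, Real.log (max 1 (⨆ i, v (α i))) := by
    have := smul_finsum (m : ℝ) (fun v : FinitePlace K => Real.log (max 1 (⨆ i, v (α i))))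
    simpa [smul_eq_mul] using this.symm
  rw [h3]
  rw [show (∑ w : InfinitePlace K, (w.mult : ℝ) * (m * Real.log (max 1 (⨆ i, w (α i))))) =
    m * ∑ w : InfinitePlace K, (w.mult : ℝ) * (Real.log (max 1 (⨆ i, w (α i)))) from by
      rw [Finset.mul_sum]; exact Finset.sum_congr rfl fun w _ => by ring]
  ring

end Pool.Agent.HBD
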