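import Pool.Agent.HBD.Unif
import Pool.Agent.HBD.Fam

set_option autoImplicit false
set_option linter.unusedSectionVars false

namespace Pool.Agent.HBD

open NumberField MvPolynomial

lemma const_case {n : ℕ} {K : Type} [Field K] [NumberField K] (α : Fin n → K)
    (F : MvPolynomial (Fin n) ℤ) (h0 : aeval α F = 0) (hF : F ≠ 0) : F.totalDegree ≠ 0 := by
  intro h
  rw [totalDegree_eq_zero_iff_eq_C] at h
  rw [h, aeval_C] at h0
  have h1 : F.coeff 0 = 0 := by
    have : ((F.coeff 0 : ℤ) : K) = 0 := by simpa using h0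
    exact_mod_cast this
  rw [h1, C_0] at h
  exact hF h

/-- All coefficients in degree at most D congruent to one nonzero residue modulo a prime. -/
theorem simplex (n : ℕ) : ∃ c : ℝ, 0 < c ∧
    ∀ (p : ℕ), p.Prime → ∀ (K : Type) [Field K] [NumberField K] (α : Fin n → K), MI α →
      ∀ (F : MvPolynomial (Fin n) ℤ) (D : ℕ) (r : ZMod p), r ≠ 0 → aeval α F = 0 →
        F.totalDegree ≤ D →
        (∀ a : Fin n →₀ ℕ, ∑ i, a i ≤ D → ((F.coeff a : ℤ) : ZMod p) = r) →
        c ≤ D * wht K α := by
  obtain ⟨Q', C0, hQ', hQC'⟩ := gg_sparse (n := n) n Finset.univ (by simp)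
  obtain ⟨c, hc, hmain⟩ := uniform C0
  refine ⟨c / ((1 + Q'.totalDegree : ℕ) : ℝ), by positivity, ?_⟩
  intro p hp K _ _ α hα F D r hr h0 hD hco
  have hpF : Fact p.Prime := ⟨hp⟩
  set Q : MvPolynomial (Fin n) (ZMod p) := map (Int.castRingHom (ZMod p)) Q' with hQdef
  have hQ : Q ≠ 0 := hQ' p hp
  have hmg : map (Int.castRingHom (ZMod p)) (gg ℤ (Finset.univ : Finset (Fin n)) D) =
      gg (ZMod p) Finset.univ D := by
    ext a
    rw [coeff_map, coeff_gg, coeff_gg]
    split_ifs <;> simp
  have hQC : (Q * gg (ZMod p) Finset.univ D).support.card ≤ C0 := by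
    rw [hQdef, ← hmg, ← map_mul]
    exact (Finset.card_le_card (support_map_subset _ _)).trans (hQC' D)
  have hQdeg : Q.totalDegree ≤ Q'.totalDegree :=
    totalDegree_mono Q Q' (support_map_subset _ _)
  have hFne : F ≠ 0 := by
    rintro rfl
    apply hr
    rw [← hco 0 (by simp)]
    simp
  have hD1 : 1 ≤ D := by
    have := const_case α F h0 hFne
    omega
  have hmap : map (Int.castRingHom (ZMod p)) F = C r * gg (ZMod p) Finset.univ D := by
    ext a
    rw [coeff_map, coeff_C_mul, coeff_gg]
    by_cases h : ∑ i, a i ≤ D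
    · rw [if_pos ⟨h, Finset.subset_univ _⟩, mul_one]
      exact hco a h
    · rw [if_neg (fun hh => h hh.1), mul_zero]
      have : F.coeff a = 0 := by
        apply coeff_eq_zero_of_totalDegree_lt
        have h2 : ∑ i ∈ a.support, a i = ∑ i, a i :=
          Finset.sum_subset (Finset.subset_univ _) (fun i _ hi => by
            simpa using hi)
        rw [h2]
        omega
      rw [this]
      simp
  have hg0 : gg (ZMod p) (Finset.univ : Finset (Fin n)) D ≠ 0 := by
    intro h
    have := coeff_gg (R := ZMod p) (Finset.univ : Finset (Fin n)) D 0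
    rw [h, coeff_zero, if_pos (by simp)] at this
    exact zero_ne_one this
  have hdvd : map (Int.castRingHom (ZMod p)) F ∣ Q * gg (ZMod p) Finset.univ D := by
    refine ⟨C r⁻¹ * Q, ?_⟩
    rw [hmap]
    have h1 : (C r * C r⁻¹ : MvPolynomial (Fin n) (ZMod p)) = 1 := by
      rw [← C_mul, mul_inv_cancel₀ hr, C_1]
    linear_combination (-(Q * gg (ZMod p) Finset.univ D)) * h1
  have hgdeg : (gg (ZMod p) (Finset.univ : Finset (Fin n)) D).totalDegree ≤ D := by
    unfold totalDegree
    refine Finset.sup_le fun a ha => ?_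
    rw [mem_support_iff, coeff_gg] at ha
    rw [Finsupp.sum_fintype _ _ (fun _ => rfl)]
    by_contra hc
    rw [if_neg (fun hh => hc hh.1)] at ha
    exact ha rfl
  have h1 := hmain p hp n K α hα F (Q * gg (ZMod p) Finset.univ D) (D * (1 + Q'.totalDegree)) h0
    hdvd (mul_ne_zero hQ hg0) hQC (hD.trans (by nlinarith)) (by
      refine (totalDegree_mul _ _).trans ?_
      nlinarith)
  rw [div_le_iff₀ (by positivity)]
  push_cast at h1 ⊢
  calc c ≤ _ := h1
    _ = _ := by ring

lemma coeff_box {n : ℕ} {R : Type} [CommRing R] (D : Fin n → ℕ) (a : Fin n →₀ ℕ) :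
    coeff a (∏ i, ∑ j ∈ Finset.range (D i + 1), (X i : MvPolynomial (Fin n) R) ^ j) =
      if ∀ i, a i ≤ D i then 1 else 0 := by
  classical
  rw [Finset.prod_univ_sum, coeff_sum]
  have h1 : ∀ f : Fin n → ℕ, (∏ i, (X i : MvPolynomial (Fin n) R) ^ f i) =
      monomial (Finsupp.equivFunOnFinite.symm f) 1 := by
    intro f
    rw [monomial_eq, C_1, one_mul, Finsupp.prod_fintype _ _ (fun _ => pow_zero _)]
    rfl
  simp only [h1, coeff_monomial]
  have h2 : ∀ f : Fin n → ℕ, (Finsupp.equivFunOnFinite.symm f = a) ↔ (f = a) := by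
    intro f
    constructor
    · intro h
      rw [← h]; rfl
    · intro h
      rw [h]
      ext i
      rfl
  simp only [h2]
  rw [Finset.sum_ite_eq']
  simp only [Fintype.mem_piFinset, Finset.mem_range, Nat.lt_succ_iff]

/-- All coefficients on a box congruent to one nonzero residue modulo a prime. -/
theorem box (n : ℕ) : ∃ c : ℝ, 0 < c ∧
    ∀ (p : ℕ), p.Prime → ∀ (K : Type) [Field K] [NumberField K] (α : Fin n → K), MI α →
      ∀ (F : MvPolynomial (Fin n) ℤ) (D : Fin n → ℕ) (r : ZMod p), r ≠ 0 → aeval α F = 0 →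
        (∀ i, F.degreeOf i ≤ D i) →
        (∀ a : Fin n →₀ ℕ, (∀ i, a i ≤ D i) → ((F.coeff a : ℤ) : ZMod p) = r) →
        c ≤ (∑ i, D i : ℕ) * wht K α := by
  classical
  obtain ⟨c, hc, hmain⟩ := uniform (2 ^ n)
  refine ⟨c / ((1 + n : ℕ) : ℝ), by positivity, ?_⟩
  intro p hp K _ _ α hα F D r hr h0 hD hco
  have hpF : Fact p.Prime := ⟨hp⟩
  have hFne : F ≠ 0 := by
    rintro rfl
    apply hr
    rw [← hco 0 (by simp)]
    simp
  have hdegF : F.totalDegree ≤ ∑ i, D i := by
    unfold totalDegree
    refine Finset.sup_le fun a ha => ?_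
    rw [Finsupp.sum_fintype _ _ (fun _ => rfl)]
    exact Finset.sum_le_sum fun i _ => (le_degreeOf_of_mem_support i ha).trans (hD i)
  have hD1 : 1 ≤ ∑ i, D i := by
    have := const_case α F h0 hFne
    omega
  set B : MvPolynomial (Fin n) (ZMod p) :=
    ∏ i, ∑ j ∈ Finset.range (D i + 1), (X i : MvPolynomial (Fin n) (ZMod p)) ^ j with hB
  have hmap : map (Int.castRingHom (ZMod p)) F = C r * B := by
    ext a
    rw [coeff_map, coeff_C_mul, hB, coeff_box]
    by_cases h : ∀ i, a i ≤ D i
    · rw [if_pos h, mul_one]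
      exact hco a h
    · rw [if_neg h, mul_zero]
      have : F.coeff a = 0 := by
        by_contra hne
        apply h
        intro i
        exact (le_degreeOf_of_mem_support i (mem_support_iff.mpr hne)).trans (hD i)
      rw [this]
      simp
  set S : MvPolynomial (Fin n) (ZMod p) := ∏ i, ((X i) ^ (D i + 1) - 1) with hS
  have hBS : B * ∏ i, (X i - 1) = S := by
    rw [hB, hS, ← Finset.prod_mul_distrib]
    refine Finset.prod_congr rfl fun i _ => ?_
    exact geom_sum_mul _ _
  have hfac : ∀ i, ((X i : MvPolynomial (Fin n) (ZMod p)) ^ (D i + 1) - 1) ≠ 0 := by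
    intro i h
    have h2 := congrArg (coeff 0) h
    rw [coeff_sub, X_pow_eq_monomial, coeff_monomial, if_neg, coeff_one, if_pos rfl,
      coeff_zero, zero_sub, neg_eq_zero] at h2
    · exact one_ne_zero h2
    · exact Finsupp.single_ne_zero.mpr (Nat.succ_ne_zero _)
  have hS0 : S ≠ 0 := Finset.prod_ne_zero_iff.mpr fun i _ => hfac i
  have hdvd : map (Int.castRingHom (ZMod p)) F ∣ S := by
    refine ⟨C r⁻¹ * ∏ i, (X i - 1), ?_⟩
    rw [hmap]
    have h1 : (C r * C r⁻¹ : MvPolynomial (Fin n) (ZMod p)) = 1 := by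
      rw [← C_mul, mul_inv_cancel₀ hr, C_1]
    linear_combination (-(B * ∏ i, (X i - 1))) * h1 - hBS
  have hcard : ∀ s : Finset (Fin n), (∏ i ∈ s,
      ((X i : MvPolynomial (Fin n) (ZMod p)) ^ (D i + 1) - 1)).support.card ≤ 2 ^ s.card := by
    intro s
    induction s using Finset.induction_on with
    | empty =>
      rw [Finset.prod_empty, Finset.card_empty, pow_zero]
      have : (1 : MvPolynomial (Fin n) (ZMod p)).support ⊆ {0} := by
        intro e he
        rw [mem_support_iff, coeff_one] at he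
        rw [Finset.mem_singleton]
        by_contra hc
        rw [if_neg (fun h => hc h.symm)] at he
        exact he rfl
      exact (Finset.card_le_card this).trans (by simp)
    | insert a s ha ih =>
      rw [Finset.prod_insert ha, Finset.card_insert_of_notMem ha,
        show (2 : ℕ) ^ (s.card + 1) = 2 * 2 ^ s.card from pow_succ' _ _]
      refine (card_mul _ _).trans (Nat.mul_le_mul ?_ ih)
      refine (card_sub _ _).trans ?_
      have e1 : ((X a : MvPolynomial (Fin n) (ZMod p)) ^ (D a + 1)).support.card ≤ 1 := by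
        rw [X_pow_eq_monomial]
        exact (Finset.card_le_card support_monomial_subset).trans (by simp)
      have e2 : (1 : MvPolynomial (Fin n) (ZMod p)).support.card ≤ 1 := by
        have : (1 : MvPolynomial (Fin n) (ZMod p)) = monomial 0 1 := rfl
        rw [this]
        exact (Finset.card_le_card support_monomial_subset).trans (by simp)
      omega
  have hSdeg : S.totalDegree ≤ ∑ i, (D i + 1) := by
    rw [hS]
    refine (totalDegree_finsetProd _ _).trans (Finset.sum_le_sum fun i _ => ?_)
    refine (totalDegree_sub _ _).trans (max_le ?_ ?_)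
    · rw [totalDegree_X_pow]
    · simp
  have hsum : ∑ i, (D i + 1) = (∑ i, D i) + n := by
    rw [Finset.sum_add_distrib]; simp
  have h1 := hmain p hp n K α hα F S ((∑ i, D i) * (1 + n)) h0 hdvd hS0
    (by have := hcard Finset.univ; simpa using this)
    (hdegF.trans (by nlinarith)) (hSdeg.trans (by rw [hsum]; nlinarith))
  rw [div_le_iff₀ (by positivity)]
  push_cast at h1 ⊢
  calc c ≤ _ := h1
    _ = _ := by ring

end Pool.Agent.HBD
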