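import Mathlib

set_option autoImplicit false

namespace Pool.Agent.HBD

open MvPolynomial

variable {n : ℕ}

/-- iterated sumset -/
noncomputable def sm (A : Finset (Fin n →₀ ℕ)) : ℕ → Finset (Fin n →₀ ℕ)
  | 0 => {0}
  | d + 1 => (sm A d ×ˢ A).image (fun x => x.1 + x.2)

lemma mem_sm_succ (A : Finset (Fin n →₀ ℕ)) (d : ℕ) (x : Fin n →₀ ℕ) :
    x ∈ sm A (d + 1) ↔ ∃ y ∈ sm A d, ∃ a ∈ A, y + a = x := by
  simp only [sm, Finset.mem_image, Finset.mem_product, Prod.exists]
  constructor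
  · rintro ⟨y, a, ⟨hy, ha⟩, h⟩
    exact ⟨y, hy, a, ha, h⟩
  · rintro ⟨y, hy, a, ha, h⟩
    exact ⟨y, a, ⟨hy, ha⟩, h⟩

lemma sm_zero_card (A : Finset (Fin n →₀ ℕ)) : (sm A 0).card = 1 := by simp [sm]

lemma sm_add (A : Finset (Fin n →₀ ℕ)) (d e : ℕ) (x y : Fin n →₀ ℕ) (hx : x ∈ sm A d)
    (hy : y ∈ sm A e) : x + y ∈ sm A (d + e) := by
  induction e generalizing y with
  | zero =>
    simp only [sm, Finset.mem_singleton] at hy
    simpa [hy] using hx
  | succ e ih =>
    obtain ⟨z, hz, a, ha, rfl⟩ := (mem_sm_succ A e y).mp hy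
    rw [← add_assoc, ← add_assoc]
    exact (mem_sm_succ A (d + e) _).mpr ⟨_, ih z hz, a, ha, rfl⟩

lemma sm_mono (A : Finset (Fin n →₀ ℕ)) (hA : A.Nonempty) :
    Monotone fun d => (sm A d).card := by
  obtain ⟨a, ha⟩ := hA
  refine monotone_nat_of_le_succ fun d => ?_
  have : (sm A d).image (fun x => x + a) ⊆ sm A (d + 1) := by
    intro x hx
    obtain ⟨y, hy, rfl⟩ := Finset.mem_image.mp hx
    exact (mem_sm_succ A d _).mpr ⟨y, hy, a, ha, rfl⟩
  calc (sm A d).card = ((sm A d).image (fun x => x + a)).card :=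
        (Finset.card_image_of_injective _ (add_left_injective a)).symm
    _ ≤ _ := Finset.card_le_card this

lemma sm_rep (A : Finset (Fin n →₀ ℕ)) (d : ℕ) (x : Fin n →₀ ℕ) (hx : x ∈ sm A d) :
    ∃ c : A → ℕ, (∀ a, c a ≤ d) ∧ x = ∑ a : A, c a • (a : Fin n →₀ ℕ) := by
  classical
  induction d generalizing x with
  | zero =>
    simp only [sm, Finset.mem_singleton] at hx
    exact ⟨fun _ => 0, fun _ => le_rfl, by simp [hx]⟩
  | succ d ih =>
    obtain ⟨y, hy, a, ha, rfl⟩ := (mem_sm_succ A d x).mp hx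
    obtain ⟨c, hc, hyc⟩ := ih y hy
    refine ⟨fun b => c b + if b = ⟨a, ha⟩ then 1 else 0, fun b => ?_, ?_⟩
    · have := hc b
      dsimp only
      split_ifs <;> omega
    · rw [hyc]
      simp only [add_smul, Finset.sum_add_distrib, ite_smul, one_smul, zero_smul,
        Finset.sum_ite_eq', Finset.mem_univ, if_true]

lemma sm_card (A : Finset (Fin n →₀ ℕ)) (k : ℕ) (hk : A.card ≤ k) (d : ℕ) :
    (sm A d).card ≤ (d + 1) ^ k := by
  classical
  have h1 : sm A d ⊆ (Finset.univ : Finset (A → Fin (d + 1))).image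
      (fun c => ∑ a : A, (c a : ℕ) • (a : Fin n →₀ ℕ)) := by
    intro x hx
    obtain ⟨c, hc, hxc⟩ := sm_rep A d x hx
    refine Finset.mem_image.mpr ⟨fun a => ⟨c a, Nat.lt_succ_of_le (hc a)⟩, Finset.mem_univ _, ?_⟩
    rw [hxc]
  calc (sm A d).card ≤ _ := Finset.card_le_card h1
    _ ≤ (Finset.univ : Finset (A → Fin (d + 1))).card := Finset.card_image_le
    _ = (d + 1) ^ A.card := by simp
    _ ≤ (d + 1) ^ k := Nat.pow_le_pow_right (by omega) hk

lemma sm_deg (A : Finset (Fin n →₀ ℕ)) (N : ℕ) (hA : ∀ a ∈ A, ∑ i, a i ≤ N) (d : ℕ)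
    (x : Fin n →₀ ℕ) (hx : x ∈ sm A d) : ∑ i, x i ≤ d * N := by
  induction d generalizing x with
  | zero =>
    simp only [sm, Finset.mem_singleton] at hx
    simp [hx]
  | succ d ih =>
    obtain ⟨y, hy, a, ha, rfl⟩ := (mem_sm_succ A d x).mp hx
    have h1 := ih y hy
    have h2 := hA a ha
    simp only [Finsupp.coe_add, Pi.add_apply, Finset.sum_add_distrib]
    rw [add_mul, one_mul]
    omega

lemma supp_mul (A : Finset (Fin n →₀ ℕ)) (d e : ℕ) (P Q : MvPolynomial (Fin n) ℤ)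
    (hP : P.support ⊆ sm A d) (hQ : Q.support ⊆ sm A e) : (P * Q).support ⊆ sm A (d + e) := by
  classical
  intro x hx
  have h1 := support_mul P Q hx
  obtain ⟨y, hy, z, hz, rfl⟩ := Finset.mem_add.mp h1
  exact sm_add A d e y z (hP hy) (hQ hz)

lemma supp_self (A : Finset (Fin n →₀ ℕ)) : A ⊆ sm A 1 := by
  intro a ha
  exact (mem_sm_succ A 0 a).mpr ⟨0, by simp [sm], a, ha, zero_add a⟩

lemma supp_pow (S : MvPolynomial (Fin n) ℤ) (d : ℕ) : (S ^ d).support ⊆ sm S.support d := by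
  induction d with
  | zero =>
    intro x hx
    simp only [sm, Finset.mem_singleton]
    rw [pow_zero, mem_support_iff, coeff_one] at hx
    by_contra hne
    rw [if_neg (fun h => hne h.symm)] at hx
    exact hx rfl
  | succ d ih =>
    rw [pow_succ]
    exact supp_mul S.support d 1 _ _ ih (supp_self _)

lemma exists_R (B : Finset (Fin n →₀ ℕ)) (p : ℕ) :
    ∃ R : Finset (MvPolynomial (Fin n) ℤ), R.card = p ^ B.card ∧
      ∀ P ∈ R, P.support ⊆ B ∧ ∀ b, 0 ≤ coeff b P ∧ (coeff b P < p ∨ b ∉ B) := by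
  classical
  set F : (B → ℕ) → MvPolynomial (Fin n) ℤ :=
    fun c => ∑ b : B, monomial (b : Fin n →₀ ℕ) ((c b : ℕ) : ℤ) with hF
  have hco : ∀ (c : B → ℕ) (b : B), coeff (b : Fin n →₀ ℕ) (F c) = c b := by
    intro c b
    simp only [hF, coeff_sum, coeff_monomial]
    rw [Finset.sum_eq_single b]
    · simp
    · intro b' _ hb'
      rw [if_neg]
      intro h
      exact hb' (Subtype.ext h)
    · intro h
      exact absurd (Finset.mem_univ b) h
  have hco' : ∀ (c : B → ℕ) (b : Fin n →₀ ℕ), b ∉ B → coeff b (F c) = 0 := by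
    intro c b hb
    simp only [hF, coeff_sum, coeff_monomial]
    refine Finset.sum_eq_zero fun b' _ => ?_
    rw [if_neg]
    intro h
    exact hb (h ▸ b'.2)
  have hinj : Function.Injective F := by
    intro c c' h
    funext b
    have h1 := hco c b
    rw [h, hco c' b] at h1
    exact_mod_cast h1.symm
  refine ⟨(Fintype.piFinset (fun _ : B => Finset.range p)).image F, ?_, ?_⟩
  · rw [Finset.card_image_of_injective _ hinj, Fintype.card_piFinset]
    simp
  · intro P hP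
    obtain ⟨c, hc, rfl⟩ := Finset.mem_image.mp hP
    rw [Fintype.mem_piFinset] at hc
    refine ⟨?_, ?_⟩
    · intro b hb
      by_contra hbB
      exact (mem_support_iff.mp hb) (hco' c b hbB)
    · intro b
      by_cases hb : b ∈ B
      · rw [hco c ⟨b, hb⟩]
        refine ⟨by positivity, Or.inl ?_⟩
        exact_mod_cast Finset.mem_range.mp (hc ⟨b, hb⟩)
      · rw [hco' c b hb]
        exact ⟨le_rfl, Or.inr hb⟩

end Pool.Agent.HBD
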