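import Pool.Agent.HBD.Core

set_option autoImplicit false
set_option linter.unusedSectionVars false

namespace Pool.Agent.HBD

open NumberField MvPolynomial

/-- Small lift of a unit multiple of a sparse polynomial modulo a large prime. -/
lemma small_lift {n : ℕ} (p k : ℕ) (hp : p.Prime) (hk1 : 1 ≤ k) (hpk : (4 * k + 1) ^ k < p)
    (S : MvPolynomial (Fin n) (ZMod p)) (hS : S.support.card ≤ k) :
    ∃ (u : ZMod p) (T : MvPolynomial (Fin n) ℤ), u ≠ 0 ∧
      map (Int.castRingHom (ZMod p)) T = C u * S ∧ T.support ⊆ S.support ∧ 2 * len T ≤ p := by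
  classical
  have hpF : Fact p.Prime := ⟨hp⟩
  set w : ℕ := p / (2 * k) with hw
  have hpbig : 4 * k < p := by
    have : 4 * k + 1 ≤ (4 * k + 1) ^ k := Nat.le_self_pow (by omega) _
    omega
  have hwpos : 0 < w := Nat.div_pos (by omega) (by omega)
  have hboxes : ∀ x : ℕ, x < p → x / w < 4 * k + 1 := by
    intro x hx
    rw [Nat.div_lt_iff_lt_mul hwpos]
    have h1 : p < 2 * k * (w + 1) := by
      rw [hw]
      have := Nat.lt_div_mul_add (a := p) (b := 2 * k) (by omega)
      nlinarith
    nlinarith
  let q : ZMod p → (S.support → ℕ) := fun u b => (u * coeff (b : Fin n →₀ ℕ) S).val / w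
  have hq : ∀ u ∈ (Finset.univ : Finset (ZMod p)),
      q u ∈ Fintype.piFinset (fun _ : S.support => Finset.range (4 * k + 1)) := by
    intro u _
    rw [Fintype.mem_piFinset]
    intro b
    rw [Finset.mem_range]
    exact hboxes _ (ZMod.val_lt _)
  have hcard : (Fintype.piFinset (fun _ : S.support => Finset.range (4 * k + 1))).card <
      (Finset.univ : Finset (ZMod p)).card := by
    rw [Fintype.card_piFinset]
    simp only [Finset.card_range, Finset.prod_const, Finset.card_univ, Fintype.card_coe,
      ZMod.card]
    exact lt_of_le_of_lt (Nat.pow_le_pow_right (by omega) hS) hpk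
  obtain ⟨u1, _, u2, _, hne, heq⟩ := Finset.exists_ne_map_eq_of_card_lt_of_maps_to hcard hq
  set f : (Fin n →₀ ℕ) → ℤ := fun b =>
    ((u1 * coeff b S).val : ℤ) - ((u2 * coeff b S).val : ℤ) with hf
  set T : MvPolynomial (Fin n) ℤ := ∑ b ∈ S.support, monomial b (f b) with hT
  have hco : ∀ b, coeff b T = if b ∈ S.support then f b else 0 := by
    intro b
    rw [hT, coeff_sum]
    simp only [coeff_monomial]
    rw [Finset.sum_ite_eq' S.support b f]
  refine ⟨u1 - u2, T, sub_ne_zero.mpr hne, ?_, ?_, ?_⟩
  · ext b
    rw [coeff_map, coeff_C_mul, hco]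
    by_cases hb : b ∈ S.support
    · have hv : ∀ x : ZMod p, (Int.castRingHom (ZMod p)) ((x.val : ℕ) : ℤ) = x := fun x => by
        rw [map_natCast]
        exact ZMod.natCast_zmod_val x
      rw [if_pos hb, hf]
      dsimp only
      rw [map_sub, hv, hv]
      ring
    · rw [if_neg hb, notMem_support_iff.mp hb]
      simp
  · intro b hb
    by_contra hbS
    rw [mem_support_iff, hco, if_neg hbS] at hb
    exact hb rfl
  · have hfb : ∀ b ∈ S.support, |f b| ≤ w := by
      intro b hb
      have h1 : (u1 * coeff b S).val / w = (u2 * coeff b S).val / w := congrFun heq ⟨b, hb⟩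
      have h2 := Nat.div_add_mod (u1 * coeff b S).val w
      have h3 := Nat.div_add_mod (u2 * coeff b S).val w
      have h4 := Nat.mod_lt (u1 * coeff b S).val hwpos
      have h5 := Nat.mod_lt (u2 * coeff b S).val hwpos
      rw [h1] at h2
      rw [hf, abs_le]
      dsimp only
      constructor <;> omega
    have h6 : len T ≤ k * w := by
      unfold len
      calc ∑ a ∈ T.support, |((T.coeff a : ℤ) : ℝ)| ≤ ∑ a ∈ T.support, (w : ℝ) := by
            refine Finset.sum_le_sum fun a ha => ?_
            have haS : a ∈ S.support := by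
              by_contra hbS
              rw [mem_support_iff, hco, if_neg hbS] at ha
              exact ha rfl
            rw [hco, if_pos haS]
            exact_mod_cast hfb a haS
        _ = (T.support.card : ℝ) * w := by rw [Finset.sum_const, nsmul_eq_mul]
        _ ≤ k * w := by
            refine mul_le_mul_of_nonneg_right ?_ (by positivity)
            have : T.support.card ≤ k := by
              refine (Finset.card_le_card ?_).trans hS
              intro b hb
              by_contra hbS
              rw [mem_support_iff, hco, if_neg hbS] at hb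
              exact hb rfl
            exact_mod_cast this
    have h7 : 2 * (k * w) ≤ p := by
      have := Nat.mul_div_le p (2 * k)
      rw [← hw] at this
      linarith
    have h8 : (2 : ℝ) * (k * w) ≤ p := by exact_mod_cast h7
    linarith

/-- Removing the power of 2 from the content. -/
lemma prim2 {n : ℕ} (m : ℕ) : ∀ (S : MvPolynomial (Fin n) ℤ) (a : Fin n →₀ ℕ), coeff a S ≠ 0 →
    (coeff a S).natAbs ≤ m →
    ∃ (S' : MvPolynomial (Fin n) ℤ) (e : ℕ), S = C ((2 : ℤ) ^ e) * S' ∧ S'.support ⊆ S.support ∧
      map (Int.castRingHom (ZMod 2)) S' ≠ 0 := by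
  induction m with
  | zero =>
    intro S a ha hm
    omega
  | succ m ih =>
    intro S a ha hm
    by_cases h : map (Int.castRingHom (ZMod 2)) S = 0
    · obtain ⟨T, hT⟩ := (C_dvd_iff_zmod 2 S).mpr h
      have hcT : ∀ b, coeff b S = 2 * coeff b T := by
        intro b
        rw [hT, coeff_C_mul]
        rfl
      have h1 := hcT a
      have h2 : coeff a T ≠ 0 := by
        intro h0
        rw [h0, mul_zero] at h1
        exact ha h1
      obtain ⟨S', e, hS', hs, hmap⟩ := ih T a h2 (by omega)
      refine ⟨S', e + 1, ?_, ?_, hmap⟩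
      · rw [hT, hS', ← mul_assoc, ← C_mul]
        congr 2
        push_cast
        ring
      · refine hs.trans ?_
        intro b hb
        rw [mem_support_iff] at hb ⊢
        rw [hcT b]
        exact mul_ne_zero two_ne_zero hb
    · exact ⟨S, 0, by simp, Finset.Subset.refl _, h⟩

/-- The statement of the main theorem for one prime and one constant. -/
def MainAt (k p : ℕ) (c : ℝ) : Prop :=
    ∀ (n : ℕ) (K : Type) [Field K] [NumberField K] (α : Fin n → K), MI α →
      ∀ (F : MvPolynomial (Fin n) ℤ) (S : MvPolynomial (Fin n) (ZMod p)) (N : ℕ),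
        aeval α F = 0 → map (Int.castRingHom (ZMod p)) F ∣ S → S ≠ 0 → S.support.card ≤ k →
        F.totalDegree ≤ N → S.totalDegree ≤ N → c ≤ N * wht K α

lemma MainAt.mono {k p : ℕ} {c c' : ℝ} (h : MainAt k p c) (hc : c' ≤ c) : MainAt k p c' :=
  fun n K _ _ α h1 F S N h2 h3 h4 h5 h6 h7 => hc.trans (h n K α h1 F S N h2 h3 h4 h5 h6 h7)

lemma finite_primes (k P : ℕ) : ∃ c : ℝ, 0 < c ∧ ∀ p : ℕ, p.Prime → p ≤ P → MainAt k p c := by
  induction P with
  | zero => exact ⟨1, one_pos, fun p hp h => absurd hp.pos (by omega)⟩
  | succ P ih =>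
    obtain ⟨c, hc, h⟩ := ih
    by_cases hP : (P + 1).Prime
    · obtain ⟨c', hc', h'⟩ := main (P + 1) k hP
      refine ⟨min c c', lt_min hc hc', fun p hp hpP => ?_⟩
      rcases Nat.lt_or_ge p (P + 1) with h1 | h1
      · exact (h p hp (by omega)).mono (min_le_left _ _)
      · have : p = P + 1 := by omega
        subst this
        have h2 : MainAt k (P + 1) c' := h'
        exact h2.mono (min_le_right _ _)
    · refine ⟨c, hc, fun p hp hpP => h p hp ?_⟩
      by_contra h1
      have : p = P + 1 := by omega
      rw [this] at hp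
      exact hP hp

theorem uniform (k : ℕ) : ∃ c : ℝ, 0 < c ∧ ∀ p : ℕ, p.Prime → MainAt k p c := by
  obtain ⟨c, hc, hfin⟩ := finite_primes k ((4 * k + 1) ^ k + 2)
  refine ⟨min c (Real.log 2 / 2), lt_min hc (by have := Real.log_pos (by norm_num : (1:ℝ) < 2); linarith), ?_⟩
  intro p hp
  rcases Nat.lt_or_ge ((4 * k + 1) ^ k) p with hbig | hsmall
  swap
  · exact (hfin p hp (by omega)).mono (min_le_left _ _)
  intro n K _ _ α hα F S N h0 hdvd hS hk hF hSN
  have hpF : Fact p.Prime := ⟨hp⟩
  have hk1 : 1 ≤ k := by
    have : S.support.Nonempty := support_nonempty.mpr hS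
    have := Finset.card_pos.mpr this
    omega
  obtain ⟨u, T, hu, hmapT, hTs, hTlen⟩ := small_lift p k hp hk1 hbig S hk
  have hS' : C u * S ≠ 0 := mul_ne_zero (by rwa [Ne, C_eq_zero]) hS
  have hTdeg : T.totalDegree ≤ N := (totalDegree_mono T S hTs).trans hSN
  have hT0 : T ≠ 0 := by
    rintro rfl
    rw [map_zero] at hmapT
    exact hS' hmapT.symm
  by_cases hTα : aeval α T = 0
  · -- T is a sparse polynomial vanishing at alpha: use p = 2
    obtain ⟨a, ha⟩ := support_nonempty.mpr hT0
    obtain ⟨T', e, hT', hT's, hmap2⟩ := prim2 _ T a (mem_support_iff.mp ha) le_rfl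
    have h2 : aeval α T' = 0 := by
      rw [hT', map_mul, aeval_C] at hTα
      rcases mul_eq_zero.mp hTα with h3 | h3
      · exfalso
        have : (algebraMap ℤ K) ((2 : ℤ) ^ e) = (2 : K) ^ e := by simp
        rw [this] at h3
        exact pow_ne_zero e two_ne_zero h3
      · exact h3
    have h2p : MainAt k 2 c := hfin 2 Nat.prime_two (by omega)
    have h4 : (map (Int.castRingHom (ZMod 2)) T').support ⊆ T'.support := support_map_subset _ _
    have h5 := h2p n K α hα T' (map (Int.castRingHom (ZMod 2)) T') N h2 (dvd_refl _) hmap2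
      ((Finset.card_le_card ((h4.trans hT's).trans hTs)).trans hk)
      ((totalDegree_mono T' T hT's).trans hTdeg)
      ((totalDegree_mono _ T (h4.trans hT's)).trans hTdeg)
    exact (min_le_left _ _).trans h5
  · -- product formula
    obtain ⟨H, hH⟩ := hdvd
    obtain ⟨H', hH', hH's⟩ := lift_poly p (C u * H)
    have hFb : map (Int.castRingHom (ZMod p)) F ≠ 0 := by
      intro h
      rw [h, zero_mul] at hH
      exact hS hH
    have hHne : H ≠ 0 := by
      rintro rfl
      rw [mul_zero] at hH
      exact hS hH
    have hHdeg : H'.totalDegree ≤ N := by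
      refine (totalDegree_mono H' _ hH's).trans ?_
      refine (totalDegree_mul _ _).trans ?_
      rw [totalDegree_C, zero_add]
      have := totalDegree_mul_of_isDomain hFb hHne
      rw [← hH] at this
      omega
    have h1 : C (p : ℤ) ∣ T - F * H' := by
      rw [C_dvd_iff_zmod, map_sub, map_mul, hmapT, hH', hH]
      ring
    obtain ⟨G, hG⟩ := h1
    have hGdeg : G.totalDegree ≤ 2 * N := by
      by_cases hG0 : G = 0
      · rw [hG0]; simp
      · have h2 : (C (p : ℤ) * G).totalDegree ≤ 2 * N := by
          rw [← hG]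
          refine (totalDegree_sub _ _).trans (max_le (by omega) ?_)
          refine (totalDegree_mul _ _).trans ?_
          omega
        have hp0 : (C (p : ℤ) : MvPolynomial (Fin n) ℤ) ≠ 0 := by
          rw [Ne, C_eq_zero]
          exact_mod_cast hp.ne_zero
        rw [totalDegree_mul_of_isDomain hp0 hG0] at h2
        omega
    have h3 : aeval α T = (p : K) * aeval α G := by
      have h4 : T = F * H' + C (p : ℤ) * G := by rw [← hG]; ring
      rw [h4, map_add, map_mul, h0, zero_mul, zero_add, map_mul, aeval_C]
      simp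
    have h5 := key α hα.1 hTα (2 * N) 1 p hp.ne_zero (len T) (one_le_len T hT0)
      (fun w => evI α T (2 * N) (by omega) w) (fun v => by
        rw [h3, map_mul, pow_one]
        exact mul_le_mul_of_nonneg_left (evF α G (2 * N) hGdeg v) (apply_nonneg v _))
    have hlen1 := one_le_len T hT0
    have h6 : Real.log 2 + Real.log (len T) ≤ Real.log p := by
      rw [← Real.log_mul (by norm_num) (by linarith)]
      exact Real.log_le_log (by linarith) hTlen
    push_cast at h5
    have h7 : Real.log 2 / 2 ≤ N * wht K α := by linarith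
    exact (min_le_right _ _).trans h7

end Pool.Agent.HBD
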